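import Pool.Agent.H35.SN.StarLin

/-!
# The identity (*) passes to the limit (helper35)
-/

set_option autoImplicit false
set_option linter.unusedSectionVars false

open scoped Topology InnerProductSpace
open Set Filter

namespace Pool.Agent.H35.SN

variable {E : Type*} [NormedAddCommGroup E] [InnerProductSpace ℝ E] [FiniteDimensional ℝ E]

/-- Test pairs of the first type. -/
def Dual1l (Z : Submodule ℝ ((E × E) × (E × E))) (e'' e' : E) : Prop :=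
  (∃ ξ ∈ TZl Z, ξ.1 = e'') ∧ (∃ ξ ∈ TZl Z, ξ.2 = e') ∧ ∀ ξ ∈ TZl Z, ⟪ξ.1, e''⟫_ℝ = ⟪ξ.2, e'⟫_ℝ

/-- Test pairs of the second type. -/
def Dual2l (Z : Submodule ℝ ((E × E) × (E × E))) (T1 T2 : Submodule ℝ E)
    (Y1 Y2 : Submodule ℝ (E × E)) (g'' g' : E) : Prop :=
  g'' ∈ T1 ∧ (∀ e ∈ TTl Y1, ⟪g'', e⟫_ℝ = 0) ∧ g' ∈ T2 ∧ (∀ e ∈ TTl Y2, ⟪g', e⟫_ℝ = 0) ∧
  ∃ ξ ∈ TZl Z,
    (∃ q r : E, (((0, g''), (q, r)) : (E × E) × (E × E)) ∈ Z ∧ q - ξ.2 ∈ TTl Y2) ∧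
    (∃ q r : E, (((q, r), (0, -g')) : (E × E) × (E × E)) ∈ Z ∧ q - ξ.1 ∈ TTl Y1)

/-- The identity (*). -/
def Starl (Z : Submodule ℝ ((E × E) × (E × E))) (T1 T2 : Submodule ℝ E)
    (Y1 Y2 : Submodule ℝ (E × E)) : Prop :=
  ∃ α : ℝ, ∀ ξ ∈ TZl Z, ∀ a b : E,
    (((0, a), (ξ.2, b)) : (E × E) × (E × E)) ∈ Z → ∀ e'' e' : E,
      (Dual1l Z e'' e' ∨ Dual2l Z T1 T2 Y1 Y2 e'' e') → ⟪a, e''⟫_ℝ - ⟪b, e'⟫_ℝ = α * ⟪ξ.2, e'⟫_ℝ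

section static

variable {n m : ℕ} {Z : Submodule ℝ ((E × E) × (E × E))} {U1 U2 : Submodule ℝ (E × E)}
  {T1 T2 : Submodule ℝ E} {Y1 Y2 : Submodule ℝ (E × E)}

theorem dual1_of_sol {x : (E × E) × (E × E)} (hx : x ∈ D1sol Z) : Dual1l Z x.1.1 x.2.2 := by
  obtain ⟨h1, h2, h3⟩ := mem_D1sol.1 hx
  exact ⟨⟨x.1, h1, rfl⟩, ⟨x.2, h2, rfl⟩, h3⟩

theorem sol_of_dual1 {e'' e' : E} (h : Dual1l Z e'' e') :
    ∃ x ∈ D1sol Z, x.1.1 = e'' ∧ x.2.2 = e' := by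
  obtain ⟨⟨ξ, h1, h2⟩, ⟨η, h3, h4⟩, h5⟩ := h
  refine ⟨(ξ, η), mem_D1sol.2 ⟨h1, h3, fun ζ hζ => ?_⟩, h2, h4⟩
  show ⟪ζ.1, ξ.1⟫_ℝ = ⟪ζ.2, η.2⟫_ℝ
  rw [h2, h4]
  exact h5 ζ hζ

theorem dual2_of_sol (h : RL n m Z U1 U2 T1 T2 Y1 Y2)
    {x : (E × E) × (((E × E) × (E × E)) × ((E × E) × (E × E)))} (hx : x ∈ S2sol Z Y1 Y2) :
    Dual2l Z T1 T2 Y1 Y2 x.2.1.1.2 (-x.2.2.2.2) := by
  obtain ⟨h1, h2, h3, h4, h5⟩ := mem_S2sol.1 hx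
  obtain ⟨ξ, ⟨⟨a, b⟩, ⟨c, d⟩⟩, ⟨⟨a', b'⟩, ⟨c', d'⟩⟩⟩ := x
  obtain ⟨h6, h7, h8⟩ := mem_Z1.1 h2
  obtain ⟨h9, h10, h11⟩ := mem_Z2.1 h3
  have h7' : a = 0 := h7
  have h10' : c' = 0 := h10
  subst h7' h10'
  refine ⟨h.v1 _ (h.u1 _ h6), fun e he => ?_, T2.neg_mem (h.v2 _ (h.u2 _ h9)), fun e he => ?_, ξ,
    h1, ⟨c, d, h6, h4⟩, a', b', ?_, h5⟩
  · rw [real_inner_comm]; exact h8 e he
  · show ⟪-d', e⟫_ℝ = 0
    rw [inner_neg_left, real_inner_comm]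
    have := h11 e he
    rw [neg_eq_zero]
    exact this
  · show ((((a', b'), (0, - -d')) : (E × E) × (E × E)) ∈ Z)
    rw [neg_neg]
    exact h9

theorem sol_of_dual2 {g'' g' : E} (h : Dual2l Z T1 T2 Y1 Y2 g'' g') :
    ∃ x ∈ S2sol Z Y1 Y2, x.2.1.1.2 = g'' ∧ -x.2.2.2.2 = g' := by
  obtain ⟨h1, h2, h3, h4, ξ, hξ, ⟨q, r, h5, h6⟩, q', r', h7, h8⟩ := h
  refine ⟨(ξ, ((0, g''), (q, r)), ((q', r'), (0, -g'))), mem_S2sol.2 ⟨hξ, mem_Z1.2 ⟨h5, rfl, ?_⟩,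
    mem_Z2.2 ⟨h7, rfl, ?_⟩, h6, h8⟩, rfl, neg_neg _⟩
  · intro e he
    rw [real_inner_comm]; exact h2 e he
  · intro e he
    show ⟪e, -g'⟫_ℝ = 0
    rw [inner_neg_right, real_inner_comm, h4 e he, neg_zero]

/-- Every vertical pair is the second member of a solution in `D1sol`. -/
theorem RN.exists_D1 (h : RN n m Z U1 U2 T1 T2 Y1 Y2) {ξ : E × E} (hξ : ξ ∈ TZl Z) :
    ∃ x ∈ D1sol Z, x.2 = ξ := by
  have h1 : (D1sol Z).map (LinearMap.snd ℝ (E × E) (E × E)) ≤ TZl Z := by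
    rintro _ ⟨x, hx, rfl⟩
    exact (mem_D1sol.1 hx).2.1
  have h2 : Module.finrank ℝ (D1sol Z) ≤
      Module.finrank ℝ ((D1sol Z).map (LinearMap.snd ℝ (E × E) (E × E))) + 0 := by
    refine finrank_le_map_add (LinearMap.snd ℝ _ _) le_rfl ?_
    have h3 : (D1sol Z ⊓ LinearMap.ker (LinearMap.snd ℝ (E × E) (E × E)) : Submodule ℝ _) = ⊥ := by
      rw [eq_bot_iff]
      rintro ⟨η, η'⟩ ⟨h4, h5⟩
      obtain ⟨h6, h7, h8⟩ := mem_D1sol.1 h4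
      have h9 : η' = 0 := h5
      subst h9
      have h10 : ⟪η.1, η.1⟫_ℝ = 0 := by
        have h11 : ⟪η.1, η.1⟫_ℝ = ⟪η.2, (0 : E)⟫_ℝ := h8 η h6
        rw [h11, inner_zero_right]
      have h12 : η = 0 := h.fst_inj h6 (inner_self_eq_zero.1 h10)
      rw [h12]
      exact Submodule.zero_mem _
    rw [h3, finrank_bot]
  have h3 := c3 (Z := Z)
  have h4 := Submodule.eq_of_le_of_finrank_le h1 (by omega)
  rw [← h4] at hξ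
  obtain ⟨x, hx, hxξ⟩ := hξ
  exact ⟨x, hx, hxξ⟩

/-- Every vertical pair is the first member of a solution in `Csol`. -/
theorem RN.exists_C (h : RN n m Z U1 U2 T1 T2 Y1 Y2) {ξ : E × E} (hξ : ξ ∈ TZl Z) :
    ∃ x ∈ Csol Z, x.1 = ξ := by
  have h1 : (Csol Z).map (LinearMap.fst ℝ (E × E) ((E × E) × (E × E))) ≤ TZl Z := by
    rintro _ ⟨x, hx, rfl⟩
    exact (mem_Csol.1 hx).1
  have h2 : Module.finrank ℝ (Csol Z) ≤
      Module.finrank ℝ ((Csol Z).map (LinearMap.fst ℝ (E × E) ((E × E) × (E × E)))) +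
        Module.finrank ℝ (TZl Z) := by
    refine finrank_le_map_add (LinearMap.fst ℝ _ _) le_rfl ?_
    refine finrank_le_of_inj_on (vp ∘ₗ LinearMap.snd ℝ (E × E) _) ?_ ?_
    · rintro ⟨ξ, ⟨a, b⟩, ⟨c, d⟩⟩ ⟨h1, h2⟩
      obtain ⟨h3, h4, h5, h6⟩ := mem_Csol.1 h1
      have h7 : ξ = 0 := h2
      have h8 : a = 0 := h5
      have h9 : c = ξ.2 := h6
      subst h7 h8
      rw [Prod.snd_zero] at h9
      subst h9
      exact h4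
    · rintro ⟨ξ, ⟨a, b⟩, ⟨c, d⟩⟩ ⟨h1, h2⟩ h0
      obtain ⟨h3, h4, h5, h6⟩ := mem_Csol.1 h1
      have h7 : ξ = 0 := h2
      have h8 : a = 0 := h5
      have h9 : c = ξ.2 := h6
      have h10 : b = 0 := congrArg Prod.fst h0
      have h11 : d = 0 := congrArg Prod.snd h0
      subst h7 h8 h10 h11
      rw [Prod.snd_zero] at h9
      subst h9
      rfl
  have h3 := h.c2
  have h3' := h.c1
  have h3'' := h.nd
  have h4 := Submodule.eq_of_le_of_finrank_le h1 (by omega)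
  rw [← h4] at hξ
  obtain ⟨x, hx, hxξ⟩ := hξ
  exact ⟨x, hx, hxξ⟩

end static

section limit

variable {ι : Type*} {l : Filter ι} {n m : ℕ} {Z : ι → Submodule ℝ ((E × E) × (E × E))}
  {U1 U2 : ι → Submodule ℝ (E × E)} {T1 T2 : ι → Submodule ℝ E}
  {Y1 Y2 : ι → Submodule ℝ (E × E)} {Z₀ : Submodule ℝ ((E × E) × (E × E))}
  {U1₀ U2₀ : Submodule ℝ (E × E)} {T1₀ T2₀ : Submodule ℝ E} {Y1₀ Y2₀ : Submodule ℝ (E × E)}

theorem conv_TZ (hZ : SConv l Z Z₀)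
    (hR : ∀ᶠ i in l, RL n m (Z i) (U1 i) (U2 i) (T1 i) (T2 i) (Y1 i) (Y2 i))
    (h0 : RN n m Z₀ U1₀ U2₀ T1₀ T2₀ Y1₀ Y2₀) : SConv l (fun i => TZl (Z i)) (TZl Z₀) := by
  refine SConv.of_gap (hZ.toGap.comapL _) ?_
  filter_upwards [hR] with i hi
  have h1 := hi.c1
  have h2 := h0.nd
  omega

theorem conv_Y1 (hZ : SConv l Z Z₀)
    (hR : ∀ᶠ i in l, RL n m (Z i) (U1 i) (U2 i) (T1 i) (T2 i) (Y1 i) (Y2 i))
    (h0 : RN n m Z₀ U1₀ U2₀ T1₀ T2₀ Y1₀ Y2₀) : SConv l Y1 Y1₀ := by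
  have h1 := hZ.toGap.comapL (LinearMap.inl ℝ (E × E) (E × E))
  have h2 : Z₀.comap (LinearMap.inl ℝ (E × E) (E × E)) = Y1₀ := by
    ext a
    exact h0.y1 a
  rw [h2] at h1
  refine SConv.of_gap (h1.congr ?_) ?_
  · filter_upwards [hR] with i hi a ha
    exact (hi.y1 a).2 ha
  · filter_upwards [hR] with i hi
    rw [hi.fY1, h0.fY1]

theorem conv_Y2 (hZ : SConv l Z Z₀)
    (hR : ∀ᶠ i in l, RL n m (Z i) (U1 i) (U2 i) (T1 i) (T2 i) (Y1 i) (Y2 i))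
    (h0 : RN n m Z₀ U1₀ U2₀ T1₀ T2₀ Y1₀ Y2₀) : SConv l Y2 Y2₀ := by
  have h1 := hZ.toGap.comapL (LinearMap.inr ℝ (E × E) (E × E))
  have h2 : Z₀.comap (LinearMap.inr ℝ (E × E) (E × E)) = Y2₀ := by
    ext a
    exact h0.y2 a
  rw [h2] at h1
  refine SConv.of_gap (h1.congr ?_) ?_
  · filter_upwards [hR] with i hi a ha
    exact (hi.y2 a).2 ha
  · filter_upwards [hR] with i hi
    rw [hi.fY2, h0.fY2]

theorem conv_TT {Y : ι → Submodule ℝ (E × E)} {Y₀ : Submodule ℝ (E × E)} (hY : SConv l Y Y₀)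
    (htr : ∀ a ∈ Y₀, a.1 = 0 → a = 0) : SConv l (fun i => TTl (Y i)) (TTl Y₀) := by
  refine SConv.of_approx ?_ ?_
  · rintro _ ⟨K, hK, rfl⟩
    obtain ⟨x, hx, hm⟩ := hY.approx hK
    refine ⟨fun i => (x i).1, (continuous_fst.tendsto _).comp hx, ?_⟩
    filter_upwards [hm] with i hi
    exact ⟨x i, hi, rfl⟩
  · have h1 : Module.finrank ℝ Y₀ ≤ Module.finrank ℝ (TTl Y₀) := by
      refine finrank_le_of_inj_on (LinearMap.fst ℝ E E) (fun x hx => ⟨x, hx, rfl⟩) ?_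
      intro x hx h0
      exact htr x hx h0
    filter_upwards [hY.finrank_eq] with i hi
    have h2 := finrank_TTl_le (Y i)
    omega

theorem conv_C (hZ : SConv l Z Z₀)
    (hR : ∀ᶠ i in l, RL n m (Z i) (U1 i) (U2 i) (T1 i) (T2 i) (Y1 i) (Y2 i))
    (h0 : RN n m Z₀ U1₀ U2₀ T1₀ T2₀ Y1₀ Y2₀) : SConv l (fun i => Csol (Z i)) (Csol Z₀) := by
  have g1 : Gap l (fun _ => (⊥ : Submodule ℝ (E × E)).comap fC)
      ((⊥ : Submodule ℝ (E × E)).comap fC) := (Gap.const l (⊥ : Submodule ℝ (E × E))).comapL fC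
  refine SConv.of_gap (((conv_TZ hZ hR h0).toGap.prod hZ.toGap).inf g1) ?_
  filter_upwards [hR] with i hi
  have h1 := hi.c2
  have h2 := hi.c1
  have h3 := h0.nd
  have h4 := finrank_Csol_le (Z := Z₀)
  omega

theorem conv_D1 (hZ : SConv l Z Z₀)
    (hR : ∀ᶠ i in l, RL n m (Z i) (U1 i) (U2 i) (T1 i) (T2 i) (Y1 i) (Y2 i))
    (h0 : RN n m Z₀ U1₀ U2₀ T1₀ T2₀ Y1₀ Y2₀) : SConv l (fun i => D1sol (Z i)) (D1sol Z₀) := by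
  have h1 := conv_TZ hZ hR h0
  refine SConv.of_gap ((h1.toGap.prod h1.toGap).inf (h1.gap_ann BD)) ?_
  filter_upwards [hR] with i hi
  have h2 := c3 (Z := Z i)
  have h3 := hi.c1
  have h4 := h0.nd
  have h5 := h0.finrank_D1sol_le
  omega

theorem conv_S2 (hZ : SConv l Z Z₀)
    (hR : ∀ᶠ i in l, RL n m (Z i) (U1 i) (U2 i) (T1 i) (T2 i) (Y1 i) (Y2 i))
    (h0 : RN n m Z₀ U1₀ U2₀ T1₀ T2₀ Y1₀ Y2₀) :
    SConv l (fun i => S2sol (Z i) (Y1 i) (Y2 i)) (S2sol Z₀ Y1₀ Y2₀) := by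
  have h1 := conv_TZ hZ hR h0
  have h2 := conv_TT (conv_Y1 hZ hR h0) h0.tr1
  have h3 := conv_TT (conv_Y2 hZ hR h0) h0.tr2
  have g1 : Gap l (fun i => Z1 (Z i) (Y1 i)) (Z1 Z₀ Y1₀) :=
    hZ.toGap.inf (((Gap.const l ⊥).prod (h2.gap_ann ip)).comapL _)
  have g2 : Gap l (fun i => Z2 (Z i) (Y2 i)) (Z2 Z₀ Y2₀) :=
    hZ.toGap.inf (((Gap.const l ⊥).prod (h3.gap_ann ip)).comapL _)
  refine SConv.of_gap ((h1.toGap.prod (g1.prod g2)).inf ((h3.toGap.prod h2.toGap).comapL fS)) ?_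
  have f1 : Module.finrank ℝ Y1₀ ≤ Module.finrank ℝ (TTl Y1₀) :=
    finrank_le_of_inj_on (LinearMap.fst ℝ E E) (fun x hx => ⟨x, hx, rfl⟩)
      fun x hx h => h0.tr1 x hx h
  have f2 : Module.finrank ℝ Y2₀ ≤ Module.finrank ℝ (TTl Y2₀) :=
    finrank_le_of_inj_on (LinearMap.fst ℝ E E) (fun x hx => ⟨x, hx, rfl⟩)
      fun x hx h => h0.tr2 x hx h
  rw [h0.fY1] at f1
  rw [h0.fY2] at f2
  filter_upwards [hR, h2.finrank_eq, h3.finrank_eq] with i hi e1 e2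
  have h4 := hi.c5
  have h5 := hi.c1
  have h6 := h0.nd
  have h7 := h0.finrank_S2sol_le
  omega

/-- The condition `e1` is open. -/
theorem e1_near (hZ : SConv l Z Z₀)
    (hR : ∀ᶠ i in l, RL n m (Z i) (U1 i) (U2 i) (T1 i) (T2 i) (Y1 i) (Y2 i))
    (h0 : RN n m Z₀ U1₀ U2₀ T1₀ T2₀ Y1₀ Y2₀) :
    ∀ᶠ i in l, ∀ ξ ∈ TZl (Z i), (∀ e ∈ TTl (Y1 i), ⟪e, ξ.1⟫_ℝ = 0) → ξ.1 = 0 := by
  have h1 := conv_TZ hZ hR h0
  have h2 := conv_TT (conv_Y1 hZ hR h0) h0.tr1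
  have h3 := h1.toGap.inf ((h2.gap_ann ip).comapL (LinearMap.fst ℝ E E))
  filter_upwards [h3 (1 / 2) (by norm_num)] with i hi ξ hξ he
  obtain ⟨z, hz, hxz⟩ := hi ξ ⟨hξ, he⟩
  have h4 : z = 0 := h0.fst_inj hz.1 (h0.e1 z hz.1 hz.2)
  rw [h4, sub_zero] at hxz
  have h5 : ‖ξ‖ ≤ 0 := by linarith [norm_nonneg ξ]
  rw [norm_le_zero_iff.1 h5]
  rfl

/-- **(*) passes to the limit.** -/
theorem starl_closure [l.NeBot] (hZ : SConv l Z Z₀)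
    (hR : ∀ᶠ i in l, RL n m (Z i) (U1 i) (U2 i) (T1 i) (T2 i) (Y1 i) (Y2 i))
    (h0 : RN n m Z₀ U1₀ U2₀ T1₀ T2₀ Y1₀ Y2₀)
    (hs : ∀ᶠ i in l, Starl (Z i) (T1 i) (T2 i) (Y1 i) (Y2 i)) :
    Starl Z₀ T1₀ T2₀ Y1₀ Y2₀ := by
  classical
  -- the approximating test pairs
  have pairs : ∀ e'' e' : E, (Dual1l Z₀ e'' e' ∨ Dual2l Z₀ T1₀ T2₀ Y1₀ Y2₀ e'' e') →
      ∃ x y : ι → E, Tendsto x l (𝓝 e'') ∧ Tendsto y l (𝓝 e') ∧ ∀ᶠ i in l,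
        (Dual1l (Z i) (x i) (y i) ∨ Dual2l (Z i) (T1 i) (T2 i) (Y1 i) (Y2 i) (x i) (y i)) := by
    rintro e'' e' (hd | hd)
    · obtain ⟨x, hx, rfl, rfl⟩ := sol_of_dual1 hd
      obtain ⟨X, hX, hm⟩ := (conv_D1 hZ hR h0).approx hx
      refine ⟨fun i => (X i).1.1, fun i => (X i).2.2, ?_, ?_, ?_⟩
      · exact ((continuous_fst.comp continuous_fst).tendsto x).comp hX
      · exact ((continuous_snd.comp continuous_snd).tendsto x).comp hX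
      · filter_upwards [hm] with i hi
        exact Or.inl (dual1_of_sol hi)
    · obtain ⟨x, hx, rfl, rfl⟩ := sol_of_dual2 hd
      obtain ⟨X, hX, hm⟩ := (conv_S2 hZ hR h0).approx hx
      refine ⟨fun i => (X i).2.1.1.2, fun i => -(X i).2.2.2.2, ?_, ?_, ?_⟩
      · exact ((continuous_snd.comp (continuous_fst.comp
          (continuous_fst.comp continuous_snd))).tendsto x).comp hX
      · exact ((continuous_snd.comp (continuous_snd.comp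
          (continuous_snd.comp continuous_snd))).neg.tendsto x).comp hX
      · filter_upwards [hm, hR] with i hi hRi
        exact Or.inr (dual2_of_sol hRi hi)
  -- the constants
  let α : ι → ℝ := fun i => if h : Starl (Z i) (T1 i) (T2 i) (Y1 i) (Y2 i) then h.choose else 0
  have hα : ∀ᶠ i in l, ∀ ξ ∈ TZl (Z i), ∀ a b : E,
      (((0, a), (ξ.2, b)) : (E × E) × (E × E)) ∈ Z i → ∀ e'' e' : E,
      (Dual1l (Z i) e'' e' ∨ Dual2l (Z i) (T1 i) (T2 i) (Y1 i) (Y2 i) e'' e') →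
      ⟪a, e''⟫_ℝ - ⟪b, e'⟫_ℝ = α i * ⟪ξ.2, e'⟫_ℝ := by
    filter_upwards [hs] with i hi
    have : α i = hi.choose := dif_pos hi
    rw [this]
    exact hi.choose_spec
  -- the limit relation for given data
  have lim : ∀ ξ ∈ TZl Z₀, ∀ a b : E, (((0, a), (ξ.2, b)) : (E × E) × (E × E)) ∈ Z₀ →
      ∀ e'' e' : E, (Dual1l Z₀ e'' e' ∨ Dual2l Z₀ T1₀ T2₀ Y1₀ Y2₀ e'' e') →
      ∃ c d : ι → ℝ, Tendsto c l (𝓝 (⟪a, e''⟫_ℝ - ⟪b, e'⟫_ℝ)) ∧ Tendsto d l (𝓝 ⟪ξ.2, e'⟫_ℝ) ∧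
        ∀ᶠ i in l, c i = α i * d i := by
    intro ξ hξ a b hab e'' e' hd
    obtain ⟨x, y, hx, hy, hxy⟩ := pairs e'' e' hd
    have hC : ((ξ, (((0, a), (ξ.2, b)) : (E × E) × (E × E)))) ∈ Csol Z₀ :=
      mem_Csol.2 ⟨hξ, hab, rfl, rfl⟩
    obtain ⟨X, hX, hm⟩ := (conv_C hZ hR h0).approx hC
    refine ⟨fun i => ⟪(X i).2.1.2, x i⟫_ℝ - ⟪(X i).2.2.2, y i⟫_ℝ, fun i => ⟪(X i).1.2, y i⟫_ℝ,
      ?_, ?_, ?_⟩
    · have t1 : Tendsto (fun i => (X i).2.1.2) l (𝓝 a) :=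
        ((continuous_snd.comp (continuous_fst.comp continuous_snd)).tendsto
          ((ξ, (((0, a), (ξ.2, b)) : (E × E) × (E × E))))).comp hX
      have t2 : Tendsto (fun i => (X i).2.2.2) l (𝓝 b) :=
        ((continuous_snd.comp (continuous_snd.comp continuous_snd)).tendsto
          ((ξ, (((0, a), (ξ.2, b)) : (E × E) × (E × E))))).comp hX
      exact (t1.inner hx).sub (t2.inner hy)
    · have t1 : Tendsto (fun i => (X i).1.2) l (𝓝 ξ.2) :=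
        ((continuous_snd.comp continuous_fst).tendsto
          ((ξ, (((0, a), (ξ.2, b)) : (E × E) × (E × E))))).comp hX
      exact t1.inner hy
    · filter_upwards [hα, hm, hxy] with i h1 h2 h3
      obtain ⟨h4, h5, h6, h7⟩ := mem_Csol.1 h2
      refine h1 _ h4 _ _ ?_ _ _ h3
      have h8 : (((0, (X i).2.1.2), ((X i).1.2, (X i).2.2.2)) : (E × E) × (E × E)) = (X i).2 := by
        rw [← h6, ← h7]
      rw [h8]
      exact h5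
  by_cases hb : TZl Z₀ = ⊥
  · -- trivial case
    refine ⟨0, fun ξ hξ a b hab e'' e' _ => ?_⟩
    rw [hb, Submodule.mem_bot] at hξ
    subst hξ
    have h1 : ((a, b) : E × E) ∈ TZl Z₀ := hab
    rw [hb, Submodule.mem_bot, Prod.mk_eq_zero] at h1
    rw [h1.1, h1.2]
    simp
  · obtain ⟨ξ₀, hξ₀, hne⟩ := (Submodule.ne_bot_iff _).1 hb
    obtain ⟨y, hy, hy2⟩ := h0.exists_D1 hξ₀
    obtain ⟨x, hx, hx2⟩ := h0.exists_C hξ₀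
    obtain ⟨h4, h5, h6, h7⟩ := mem_Csol.1 hx
    have h8 : (((0, x.2.1.2), (ξ₀.2, x.2.2.2)) : (E × E) × (E × E)) ∈ Z₀ := by
      have h9 : (((0, x.2.1.2), (ξ₀.2, x.2.2.2)) : (E × E) × (E × E)) = x.2 := by
        rw [← h6, ← hx2, ← h7]
      rw [h9]
      exact h5
    obtain ⟨c, d, hc, hd, hcd⟩ := lim ξ₀ hξ₀ _ _ h8 _ _ (Or.inl (dual1_of_sol hy))
    have hd0 : ⟪ξ₀.2, y.2.2⟫_ℝ ≠ 0 := by
      rw [hy2]
      intro h9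
      exact hne (h0.snd_inj hξ₀ (inner_self_eq_zero.1 h9))
    have hlim : Tendsto α l (𝓝 ((⟪x.2.1.2, y.1.1⟫_ℝ - ⟪x.2.2.2, y.2.2⟫_ℝ) / ⟪ξ₀.2, y.2.2⟫_ℝ)) := by
      refine (hc.div hd hd0).congr' ?_
      filter_upwards [hcd, hd.eventually_ne hd0] with i h9 h10
      rw [Pi.div_apply, h9]
      field_simp
    refine ⟨(⟪x.2.1.2, y.1.1⟫_ℝ - ⟪x.2.2.2, y.2.2⟫_ℝ) / ⟪ξ₀.2, y.2.2⟫_ℝ,
      fun ξ hξ a b hab e'' e' hd' => ?_⟩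
    obtain ⟨c', d', hc', hd'', hcd'⟩ := lim ξ hξ a b hab e'' e' hd'
    have h9 := hlim.mul hd''
    refine tendsto_nhds_unique hc' (h9.congr' ?_)
    filter_upwards [hcd'] with i h10
    exact h10.symm

end limit

end Pool.Agent.H35.SN
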