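import Pool.Agent.H35.SN.Gap

/-!
# Linear algebra of the return relation: dimension counts (helper35)

`Z` is the Zariski tangent space of the relation at a point, `U1, U2` the tangent spaces of the unit
tangent bundle, `T1, T2` those of `S`, `Y1, Y2` the distribution.
-/

set_option autoImplicit false
set_option linter.unusedSectionVars false

open scoped Topology InnerProductSpace
open Set Filter

namespace Pool.Agent.H35.SN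

section general

variable {V W : Type*} [NormedAddCommGroup V] [NormedSpace ℝ V]
  [FiniteDimensional ℝ V] [NormedAddCommGroup W] [NormedSpace ℝ W] [FiniteDimensional ℝ W]

theorem finrank_le_of_inj_on {P : Submodule ℝ V} {Q : Submodule ℝ W} (g : V →ₗ[ℝ] W)
    (hm : ∀ x ∈ P, g x ∈ Q) (hi : ∀ x ∈ P, g x = 0 → x = 0) :
    Module.finrank ℝ P ≤ Module.finrank ℝ Q := by
  let g' : P →ₗ[ℝ] Q := (g.comp P.subtype).codRestrict Q fun x => hm x x.2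
  have h1 : Function.Injective g' := by
    rw [injective_iff_map_eq_zero]
    intro x hx
    exact Subtype.ext (hi x x.2 (congrArg Subtype.val hx))
  exact LinearMap.finrank_le_finrank_of_injective h1

theorem finrank_prod' (P : Submodule ℝ V) (Q : Submodule ℝ W) :
    Module.finrank ℝ (P.prod Q) = Module.finrank ℝ P + Module.finrank ℝ Q := by
  let e : (P.prod Q) ≃ₗ[ℝ] (P × Q) :=
    { toFun := fun x => (⟨x.1.1, x.2.1⟩, ⟨x.1.2, x.2.2⟩)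
      map_add' := fun _ _ => rfl
      map_smul' := fun _ _ => rfl
      invFun := fun y => ⟨(y.1, y.2), ⟨y.1.2, y.2.2⟩⟩
      left_inv := fun _ => rfl
      right_inv := fun _ => rfl }
  rw [e.finrank_eq, Module.finrank_prod]

theorem finrank_ann (B : V →L[ℝ] W →L[ℝ] ℝ) (P : Submodule ℝ W) (Z : Submodule ℝ V) :
    Module.finrank ℝ P ≤ Module.finrank ℝ (P ⊓ Ann B Z : Submodule ℝ W) + Module.finrank ℝ Z := by
  let f : W →ₗ[ℝ] (Z →L[ℝ] ℝ) := ((B ∘L Z.subtypeL).flip).toLinearMap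
  have h1 := finrank_sol (V := W) (W := Z →L[ℝ] ℝ) (P := P) (Q := ⊥) (R := ⊤) f bot_le
    fun _ _ => trivial
  have h2 : Module.finrank ℝ (⊤ : Submodule ℝ (Z →L[ℝ] ℝ)) = Module.finrank ℝ Z := by
    rw [finrank_top]
    have e : (Z →L[ℝ] ℝ) ≃ₗ[ℝ] (Module.Dual ℝ Z) := LinearMap.toContinuousLinearMap.symm
    rw [e.finrank_eq, Subspace.dual_finrank_eq]
  have h3 : (P ⊓ (⊥ : Submodule ℝ (Z →L[ℝ] ℝ)).comap f : Submodule ℝ W) ≤ P ⊓ Ann B Z := by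
    rintro x ⟨hx, hx'⟩
    refine ⟨hx, fun z hz => ?_⟩
    have h4 : f x = 0 := hx'
    have h5 := DFunLike.congr_fun h4 ⟨z, hz⟩
    exact h5
  have h4 := Submodule.finrank_mono h3
  rw [finrank_bot] at h1
  omega

end general

variable {E : Type*} [NormedAddCommGroup E] [InnerProductSpace ℝ E] [FiniteDimensional ℝ E]

/-- The inner product as a continuous bilinear map. -/
noncomputable def ip : E →L[ℝ] E →L[ℝ] ℝ :=
  LinearMap.mkContinuous₂ (innerₗ E) 1 (by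
    intro x y
    rw [one_mul]
    exact norm_inner_le_norm x y)

theorem ip_apply (x y : E) : (ip : E →L[ℝ] E →L[ℝ] ℝ) x y = ⟪x, y⟫_ℝ := rfl

/-- The pairing of the vertical pairs with pairs of vertical pairs. -/
noncomputable def BD : (E × E) →L[ℝ] ((E × E) × (E × E)) →L[ℝ] ℝ :=
  LinearMap.mkContinuous₂ (LinearMap.mk₂ ℝ
    (fun (ξ : E × E) (η : (E × E) × (E × E)) => ⟪ξ.1, η.1.1⟫_ℝ - ⟪ξ.2, η.2.2⟫_ℝ)
    (fun a b c => by simp [inner_add_left]; ring)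
    (fun r a b => by simp [inner_smul_left]; ring)
    (fun a b c => by simp [inner_add_right]; ring)
    (fun r a b => by simp [inner_smul_right]; ring)) 2 (by
    intro ξ η
    show ‖⟪ξ.1, η.1.1⟫_ℝ - ⟪ξ.2, η.2.2⟫_ℝ‖ ≤ 2 * ‖ξ‖ * ‖η‖
    have h1 : ‖⟪ξ.1, η.1.1⟫_ℝ‖ ≤ ‖ξ‖ * ‖η‖ := by
      refine (norm_inner_le_norm (𝕜 := ℝ) ξ.1 η.1.1).trans ?_
      have := norm_fst_le ξ
      have h2 := (norm_fst_le η.1).trans (norm_fst_le η)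
      gcongr
    have h1' : ‖⟪ξ.2, η.2.2⟫_ℝ‖ ≤ ‖ξ‖ * ‖η‖ := by
      refine (norm_inner_le_norm (𝕜 := ℝ) ξ.2 η.2.2).trans ?_
      have := norm_snd_le ξ
      have h2 := (norm_snd_le η.2).trans (norm_snd_le η)
      gcongr
    have := norm_sub_le ⟪ξ.1, η.1.1⟫_ℝ ⟪ξ.2, η.2.2⟫_ℝ
    linarith)

theorem BD_apply (ξ : E × E) (η : (E × E) × (E × E)) :
    BD ξ η = ⟪ξ.1, η.1.1⟫_ℝ - ⟪ξ.2, η.2.2⟫_ℝ := rfl

/-- Vertical pairs. -/
noncomputable def TZl (Z : Submodule ℝ ((E × E) × (E × E))) : Submodule ℝ (E × E) :=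
  Z.comap ((LinearMap.inr ℝ E E).prodMap (LinearMap.inr ℝ E E))

theorem mem_TZl {Z : Submodule ℝ ((E × E) × (E × E))} {ξ : E × E} :
    ξ ∈ TZl Z ↔ (((0, ξ.1), (0, ξ.2)) : (E × E) × (E × E)) ∈ Z := Iff.rfl

/-- Horizontal parts. -/
noncomputable def TTl (Y : Submodule ℝ (E × E)) : Submodule ℝ E := Y.map (LinearMap.fst ℝ E E)

theorem mem_TTl {Y : Submodule ℝ (E × E)} {e : E} : e ∈ TTl Y ↔ ∃ K ∈ Y, K.1 = e := Iff.rfl

/-- The linear structure of the relation at a point. -/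
structure RL (n m : ℕ) (Z : Submodule ℝ ((E × E) × (E × E))) (U1 U2 : Submodule ℝ (E × E))
    (T1 T2 : Submodule ℝ E) (Y1 Y2 : Submodule ℝ (E × E)) : Prop where
  u1 : ∀ z ∈ Z, z.1 ∈ U1
  u2 : ∀ z ∈ Z, z.2 ∈ U2
  b1 : ∀ a ∈ U1, a.1 ∈ T1
  b2 : ∀ a ∈ U2, a.1 ∈ T2
  v1 : ∀ ξ, ((0 : E), ξ) ∈ U1 → ξ ∈ T1
  v2 : ∀ ξ, ((0 : E), ξ) ∈ U2 → ξ ∈ T2
  n1 : ∀ g ∈ T1, (∀ e ∈ TTl Y1, ⟪e, g⟫_ℝ = 0) → ((0 : E), g) ∈ U1
  n2 : ∀ g ∈ T2, (∀ e ∈ TTl Y2, ⟪e, g⟫_ℝ = 0) → ((0 : E), g) ∈ U2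
  y1 : ∀ a, (a, (0 : E × E)) ∈ Z ↔ a ∈ Y1
  y2 : ∀ b, ((0 : E × E), b) ∈ Z ↔ b ∈ Y2
  fU1 : Module.finrank ℝ U1 + 1 = 2 * n
  fU2 : Module.finrank ℝ U2 + 1 = 2 * n
  fT1 : Module.finrank ℝ T1 = n
  fT2 : Module.finrank ℝ T2 = n
  fY1 : Module.finrank ℝ Y1 = m
  fY2 : Module.finrank ℝ Y2 = m
  fZ : Module.finrank ℝ Z + 1 = 2 * n + m

variable {n m : ℕ} {Z : Submodule ℝ ((E × E) × (E × E))} {U1 U2 : Submodule ℝ (E × E)}
  {T1 T2 : Submodule ℝ E} {Y1 Y2 : Submodule ℝ (E × E)}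

/-- The base projection. -/
noncomputable def bp : ((E × E) × (E × E)) →ₗ[ℝ] E × E :=
  (LinearMap.fst ℝ E E).prodMap (LinearMap.fst ℝ E E)

theorem bp_apply (z : (E × E) × (E × E)) : bp z = (z.1.1, z.2.1) := rfl

/-- The vertical parts. -/
noncomputable def vp : ((E × E) × (E × E)) →ₗ[ℝ] E × E :=
  (LinearMap.snd ℝ E E).prodMap (LinearMap.snd ℝ E E)

theorem vp_apply (z : (E × E) × (E × E)) : vp z = (z.1.2, z.2.2) := rfl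

theorem finrank_ker_bp : Module.finrank ℝ (Z ⊓ (⊥ : Submodule ℝ (E × E)).comap bp :
    Submodule ℝ ((E × E) × (E × E))) ≤ Module.finrank ℝ (TZl Z) := by
  refine finrank_le_of_inj_on vp ?_ ?_
  · rintro ⟨⟨a, b⟩, ⟨c, d⟩⟩ ⟨h1, h2⟩
    have h3 : a = 0 := congrArg Prod.fst h2
    have h4 : c = 0 := congrArg Prod.snd h2
    subst h3 h4
    exact h1
  · rintro ⟨⟨a, b⟩, ⟨c, d⟩⟩ ⟨h1, h2⟩ h0
    have h3 : a = 0 := congrArg Prod.fst h2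
    have h4 : c = 0 := congrArg Prod.snd h2
    have h5 : b = 0 := congrArg Prod.fst h0
    have h6 : d = 0 := congrArg Prod.snd h0
    subst h3 h4 h5 h6
    rfl

theorem RL.base (h : RL n m Z U1 U2 T1 T2 Y1 Y2) {z : (E × E) × (E × E)} (hz : z ∈ Z) :
    z.1.1 ∈ T1 ∧ z.2.1 ∈ T2 := ⟨h.b1 _ (h.u1 z hz), h.b2 _ (h.u2 z hz)⟩

/-- (c1) -/
theorem RL.c1 (h : RL n m Z U1 U2 T1 T2 Y1 Y2) : m ≤ Module.finrank ℝ (TZl Z) + 1 := by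
  have h1 := finrank_sol (P := Z) (Q := ⊥) (R := T1.prod T2) (bp (E := E)) bot_le
    fun z hz => h.base hz
  rw [finrank_bot, finrank_prod', h.fT1, h.fT2] at h1
  have h2 := finrank_ker_bp (Z := Z)
  have h3 := h.fZ
  omega

theorem RL.ty1 (h : RL n m Z U1 U2 T1 T2 Y1 Y2) : TTl Y1 ≤ T1 := by
  rintro _ ⟨K, hK, rfl⟩
  exact h.b1 _ (h.u1 _ ((h.y1 K).2 hK))

theorem RL.ty2 (h : RL n m Z U1 U2 T1 T2 Y1 Y2) : TTl Y2 ≤ T2 := by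
  rintro _ ⟨K, hK, rfl⟩
  exact h.b2 _ (h.u2 _ ((h.y2 K).2 hK))

theorem finrank_TTl_le (Y : Submodule ℝ (E × E)) :
    Module.finrank ℝ (TTl Y) ≤ Module.finrank ℝ Y := Submodule.finrank_map_le _ _

/-- The condition of `Csol`. -/
noncomputable def fC : ((E × E) × ((E × E) × (E × E))) →ₗ[ℝ] E × E :=
  bp ∘ₗ (LinearMap.snd ℝ _ _) -
    ((LinearMap.inr ℝ E E) ∘ₗ (LinearMap.snd ℝ E E)) ∘ₗ (LinearMap.fst ℝ _ _)

theorem fC_apply (x : (E × E) × ((E × E) × (E × E))) :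
    fC x = (x.2.1.1 - 0, x.2.2.1 - x.1.2) := rfl

/-- Solutions `(ξ, z)`: `ξ` a vertical pair, `z` a vector over the base vector `(0, ξ.2)`. -/
noncomputable def Csol (Z : Submodule ℝ ((E × E) × (E × E))) :
    Submodule ℝ ((E × E) × ((E × E) × (E × E))) :=
  ((TZl Z).prod Z) ⊓ (⊥ : Submodule ℝ (E × E)).comap fC

theorem mem_Csol {x : (E × E) × ((E × E) × (E × E))} :
    x ∈ Csol Z ↔ x.1 ∈ TZl Z ∧ x.2 ∈ Z ∧ x.2.1.1 = 0 ∧ x.2.2.1 = x.1.2 := by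
  constructor
  · rintro ⟨⟨h2, h3⟩, h4⟩
    have h5 : ((x.2.1.1 - 0, x.2.2.1 - x.1.2) : E × E) = 0 := h4
    rw [Prod.mk_eq_zero, sub_zero, sub_eq_zero] at h5
    exact ⟨h2, h3, h5.1, h5.2⟩
  · rintro ⟨h2, h3, h4, h5⟩
    refine ⟨⟨h2, h3⟩, ?_⟩
    show ((x.2.1.1 - 0, x.2.2.1 - x.1.2) : E × E) = 0
    rw [Prod.mk_eq_zero, sub_zero, sub_eq_zero]
    exact ⟨h4, h5⟩

/-- (c2) -/
theorem RL.c2 (h : RL n m Z U1 U2 T1 T2 Y1 Y2) :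
    Module.finrank ℝ (TZl Z) + m ≤ Module.finrank ℝ (Csol Z) + 1 := by
  have h1 := finrank_sol (P := (TZl Z).prod Z) (Q := ⊥) (R := T1.prod T2) fC bot_le (by
      rintro ⟨ξ, z⟩ ⟨h2, h3⟩
      obtain ⟨h4, h5⟩ := h.base h3
      have h6 := h.v2 _ (h.u2 _ (mem_TZl.1 h2))
      exact ⟨T1.sub_mem h4 T1.zero_mem, T2.sub_mem h5 h6⟩)
  rw [finrank_bot, finrank_prod', finrank_prod', h.fT1, h.fT2] at h1
  have h3 := h.fZ
  unfold Csol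
  omega

/-- Test pairs of the first type, as solutions `(η₁, η₂)`. -/
noncomputable def D1sol (Z : Submodule ℝ ((E × E) × (E × E))) :
    Submodule ℝ ((E × E) × (E × E)) :=
  ((TZl Z).prod (TZl Z)) ⊓ Ann BD (TZl Z)

theorem mem_D1sol {x : (E × E) × (E × E)} : x ∈ D1sol Z ↔ x.1 ∈ TZl Z ∧ x.2 ∈ TZl Z ∧
    ∀ ξ ∈ TZl Z, ⟪ξ.1, x.1.1⟫_ℝ = ⟪ξ.2, x.2.2⟫_ℝ := by
  constructor
  · rintro ⟨⟨h1, h2⟩, h3⟩
    exact ⟨h1, h2, fun ξ hξ => sub_eq_zero.1 (h3 ξ hξ)⟩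
  · rintro ⟨h1, h2, h3⟩
    exact ⟨⟨h1, h2⟩, fun ξ hξ => sub_eq_zero.2 (h3 ξ hξ)⟩

/-- (c3) -/
theorem c3 : Module.finrank ℝ (TZl Z) ≤ Module.finrank ℝ (D1sol Z) := by
  have h1 := finrank_ann (BD (E := E)) ((TZl Z).prod (TZl Z)) (TZl Z)
  rw [finrank_prod'] at h1
  unfold D1sol
  omega

/-- The vectors of `Z` with a first component `(0, g)`, `g` normal to `TTl Y1`. -/
noncomputable def Z1 (Z : Submodule ℝ ((E × E) × (E × E))) (Y1 : Submodule ℝ (E × E)) :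
    Submodule ℝ ((E × E) × (E × E)) :=
  Z ⊓ ((⊥ : Submodule ℝ E).prod (Ann ip (TTl Y1))).comap (LinearMap.fst ℝ _ _)

/-- The vectors of `Z` with a second component `(0, g)`, `g` normal to `TTl Y2`. -/
noncomputable def Z2 (Z : Submodule ℝ ((E × E) × (E × E))) (Y2 : Submodule ℝ (E × E)) :
    Submodule ℝ ((E × E) × (E × E)) :=
  Z ⊓ ((⊥ : Submodule ℝ E).prod (Ann ip (TTl Y2))).comap (LinearMap.snd ℝ _ _)

theorem mem_Z1 {z : (E × E) × (E × E)} : z ∈ Z1 Z Y1 ↔ z ∈ Z ∧ z.1.1 = 0 ∧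
    ∀ e ∈ TTl Y1, ⟪e, z.1.2⟫_ℝ = 0 := by
  constructor
  · rintro ⟨h1, h2, h3⟩
    exact ⟨h1, h2, h3⟩
  · rintro ⟨h1, h2, h3⟩
    exact ⟨h1, h2, h3⟩

theorem mem_Z2 {z : (E × E) × (E × E)} : z ∈ Z2 Z Y2 ↔ z ∈ Z ∧ z.2.1 = 0 ∧
    ∀ e ∈ TTl Y2, ⟪e, z.2.2⟫_ℝ = 0 := by
  constructor
  · rintro ⟨h1, h2, h3⟩
    exact ⟨h1, h2, h3⟩
  · rintro ⟨h1, h2, h3⟩
    exact ⟨h1, h2, h3⟩

/-- (c4) -/
theorem RL.c4 (h : RL n m Z U1 U2 T1 T2 Y1 Y2) : n ≤ Module.finrank ℝ (Z1 Z Y1) := by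
  have h1 := finrank_ann (ip (E := E)) T1 (TTl Y1)
  have h2 := finrank_TTl_le Y1
  rw [h.fY1] at h2
  rw [h.fT1] at h1
  have h3 := finrank_sol (P := Z) (Q := (⊥ : Submodule ℝ E).prod (T1 ⊓ Ann ip (TTl Y1))) (R := U1)
    (LinearMap.fst ℝ (E × E) (E × E)) (by
      rintro ⟨a, g⟩ ⟨h4, h5, h6⟩
      have h7 : a = 0 := h4
      subst h7
      exact h.n1 g h5 h6) h.u1
  rw [finrank_prod', finrank_bot] at h3
  have h4 : (Z ⊓ ((⊥ : Submodule ℝ E).prod (T1 ⊓ Ann ip (TTl Y1))).comap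
      (LinearMap.fst ℝ (E × E) (E × E)) : Submodule ℝ ((E × E) × (E × E))) ≤ Z1 Z Y1 := by
    rintro z ⟨h5, h6, h7⟩
    exact ⟨h5, h6, h7.2⟩
  have h5 := Submodule.finrank_mono h4
  have h6 := h.fZ
  have h7 := h.fU1
  omega

theorem RL.c4' (h : RL n m Z U1 U2 T1 T2 Y1 Y2) : n ≤ Module.finrank ℝ (Z2 Z Y2) := by
  have h1 := finrank_ann (ip (E := E)) T2 (TTl Y2)
  have h2 := finrank_TTl_le Y2
  rw [h.fY2] at h2
  rw [h.fT2] at h1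
  have h3 := finrank_sol (P := Z) (Q := (⊥ : Submodule ℝ E).prod (T2 ⊓ Ann ip (TTl Y2))) (R := U2)
    (LinearMap.snd ℝ (E × E) (E × E)) (by
      rintro ⟨a, g⟩ ⟨h4, h5, h6⟩
      have h7 : a = 0 := h4
      subst h7
      exact h.n2 g h5 h6) h.u2
  rw [finrank_prod', finrank_bot] at h3
  have h4 : (Z ⊓ ((⊥ : Submodule ℝ E).prod (T2 ⊓ Ann ip (TTl Y2))).comap
      (LinearMap.snd ℝ (E × E) (E × E)) : Submodule ℝ ((E × E) × (E × E))) ≤ Z2 Z Y2 := by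
    rintro z ⟨h5, h6, h7⟩
    exact ⟨h5, h6, h7.2⟩
  have h5 := Submodule.finrank_mono h4
  have h6 := h.fZ
  have h7 := h.fU2
  omega

/-- The linear conditions of the test pairs of the second type. -/
noncomputable def fS : ((E × E) × (((E × E) × (E × E)) × ((E × E) × (E × E)))) →ₗ[ℝ] E × E :=
  (((LinearMap.fst ℝ E E) ∘ₗ (LinearMap.snd ℝ (E × E) (E × E)) ∘ₗ (LinearMap.fst ℝ _ _)).prod
    ((LinearMap.fst ℝ E E) ∘ₗ (LinearMap.fst ℝ (E × E) (E × E)) ∘ₗ (LinearMap.snd ℝ _ _))) ∘ₗ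
      (LinearMap.snd ℝ _ _) -
    ((LinearMap.snd ℝ E E).prod (LinearMap.fst ℝ E E)) ∘ₗ (LinearMap.fst ℝ _ _)

theorem fS_apply (x : (E × E) × (((E × E) × (E × E)) × ((E × E) × (E × E)))) :
    fS x = (x.2.1.2.1 - x.1.2, x.2.2.1.1 - x.1.1) := rfl

/-- Test pairs of the second type, as solutions `(ξ, z₁, z₂)`. -/
noncomputable def S2sol (Z : Submodule ℝ ((E × E) × (E × E))) (Y1 Y2 : Submodule ℝ (E × E)) :
    Submodule ℝ ((E × E) × (((E × E) × (E × E)) × ((E × E) × (E × E)))) :=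
  ((TZl Z).prod ((Z1 Z Y1).prod (Z2 Z Y2))) ⊓ ((TTl Y2).prod (TTl Y1)).comap fS

theorem mem_S2sol {x : (E × E) × (((E × E) × (E × E)) × ((E × E) × (E × E)))} :
    x ∈ S2sol Z Y1 Y2 ↔ x.1 ∈ TZl Z ∧ x.2.1 ∈ Z1 Z Y1 ∧ x.2.2 ∈ Z2 Z Y2 ∧
      x.2.1.2.1 - x.1.2 ∈ TTl Y2 ∧ x.2.2.1.1 - x.1.1 ∈ TTl Y1 := by
  constructor
  · rintro ⟨⟨h1, h2, h3⟩, h4, h5⟩
    exact ⟨h1, h2, h3, h4, h5⟩
  · rintro ⟨h1, h2, h3, h4, h5⟩
    exact ⟨⟨h1, h2, h3⟩, h4, h5⟩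

/-- (c5) -/
theorem RL.c5 (h : RL n m Z U1 U2 T1 T2 Y1 Y2) :
    Module.finrank ℝ (TZl Z) + Module.finrank ℝ (TTl Y1) + Module.finrank ℝ (TTl Y2) ≤
      Module.finrank ℝ (S2sol Z Y1 Y2) := by
  have h1 := finrank_sol (P := (TZl Z).prod ((Z1 Z Y1).prod (Z2 Z Y2)))
    (Q := (TTl Y2).prod (TTl Y1)) (R := T2.prod T1) fS (Submodule.prod_mono h.ty2 h.ty1) (by
      rintro ⟨ξ, z, z'⟩ ⟨h2, h3, h4⟩
      have h5 := h.v2 _ (h.u2 _ (mem_TZl.1 h2))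
      have h5' := h.v1 _ (h.u1 _ (mem_TZl.1 h2))
      exact ⟨T2.sub_mem (h.base (mem_Z1.1 h3).1).2 h5, T1.sub_mem (h.base (mem_Z2.1 h4).1).1 h5'⟩)
  rw [finrank_prod', finrank_prod', finrank_prod', finrank_prod', h.fT1, h.fT2] at h1
  have h2 := h.c4
  have h3 := h.c4'
  unfold S2sol
  omega

end Pool.Agent.H35.SN
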