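import Pool.Agent.H35.SN.SConv

/-!
# Upper semicontinuity of families of subspaces (helper35)

`Gap l Z Z₀`: the vectors of `Z i` are close to `Z₀`. Solution spaces of linear conditions with
converging data satisfy it; with a lower bound of the dimension they converge (`SConv.of_gap`).
-/

set_option autoImplicit false
set_option linter.unusedSectionVars false

open scoped Topology InnerProductSpace
open Set Filter

namespace Pool.Agent.H35.SN

variable {ι : Type*} {V W X : Type*} [NormedAddCommGroup V] [NormedSpace ℝ V]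
  [FiniteDimensional ℝ V] [NormedAddCommGroup W] [NormedSpace ℝ W] [FiniteDimensional ℝ W]
  [NormedAddCommGroup X] [NormedSpace ℝ X] [FiniteDimensional ℝ X]

variable {l : Filter ι}

/-- Upper semicontinuity. -/
def Gap (l : Filter ι) (Z : ι → Submodule ℝ V) (Z₀ : Submodule ℝ V) : Prop :=
  ∀ ε > 0, ∀ᶠ i in l, ∀ x ∈ Z i, ∃ z ∈ Z₀, ‖x - z‖ ≤ ε * ‖x‖

/-- The distance from the kernel is controlled by the value. -/
theorem exists_near_ker (f : V →L[ℝ] W) :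
    ∃ C : ℝ, 0 < C ∧ ∀ x, ∃ z, f z = 0 ∧ ‖x - z‖ ≤ C * ‖f x‖ := by
  obtain ⟨C, hC⟩ := (LinearMap.ker f.toLinearMap).exists_isCompl
  have hker : LinearMap.ker (f.toLinearMap.domRestrict C) = ⊥ := by
    rw [LinearMap.ker_eq_bot']
    rintro ⟨x, hx⟩ h0
    have h1 : x ∈ LinearMap.ker f.toLinearMap ⊓ C := ⟨h0, hx⟩
    rw [hC.inf_eq_bot] at h1
    exact Subtype.ext ((Submodule.mem_bot ℝ).1 h1)
  obtain ⟨g, hg⟩ := (f.toLinearMap.domRestrict C).exists_leftInverse_of_injective hker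
  let G : W →L[ℝ] V := LinearMap.toContinuousLinearMap (C.subtype.comp g)
  have hG : ∀ x ∈ C, G (f x) = x := by
    intro x hx
    have h1 := LinearMap.congr_fun hg ⟨x, hx⟩
    exact congrArg Subtype.val h1
  refine ⟨‖G‖ + 1, by positivity, fun x => ⟨x - G (f x), ?_, ?_⟩⟩
  · obtain ⟨k, hk, c, hc, rfl⟩ := Submodule.mem_sup.1 (show x ∈ LinearMap.ker f.toLinearMap ⊔ C by
      rw [hC.sup_eq_top]; trivial)
    have hk' : f k = 0 := hk
    have h1 : f (k + c) = f c := by rw [map_add, hk', zero_add]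
    rw [h1, hG c hc, add_sub_cancel_right]
    exact hk'
  · rw [sub_sub_cancel]
    calc ‖G (f x)‖ ≤ ‖G‖ * ‖f x‖ := G.le_opNorm _
      _ ≤ (‖G‖ + 1) * ‖f x‖ := by gcongr; linarith

theorem gap_of_eq {Z : ι → Submodule ℝ V} {Z₀ : Submodule ℝ V} (q : V →L[ℝ] W)
    (hq : ∀ x, q x = 0 → x ∈ Z₀)
    (h : ∀ ε > 0, ∀ᶠ i in l, ∀ x ∈ Z i, ‖q x‖ ≤ ε * ‖x‖) : Gap l Z Z₀ := by
  obtain ⟨C, hC, hz⟩ := exists_near_ker q
  intro ε hε
  filter_upwards [h (ε / C) (by positivity)] with i hi x hx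
  obtain ⟨z, hz0, hxz⟩ := hz x
  refine ⟨z, hq z hz0, hxz.trans ?_⟩
  calc C * ‖q x‖ ≤ C * (ε / C * ‖x‖) := by gcongr; exact hi x hx
    _ = ε * ‖x‖ := by field_simp

/-- Equations of a subspace. -/
theorem exists_eqs (Z₀ : Submodule ℝ V) :
    ∃ q : V →L[ℝ] V, ∀ x, q x = 0 ↔ x ∈ Z₀ := by
  obtain ⟨C, hC⟩ := Z₀.exists_isCompl
  let π : V →L[ℝ] Z₀ := LinearMap.toContinuousLinearMap (Submodule.projectionOnto Z₀ C hC)
  have hπ : ∀ z : Z₀, π z = z := fun z => Submodule.projectionOnto_apply_left hC z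
  refine ⟨ContinuousLinearMap.id ℝ V - Z₀.subtypeL ∘L π, fun x => ?_⟩
  have h1 : (ContinuousLinearMap.id ℝ V - Z₀.subtypeL ∘L π) x = x - (π x : V) := rfl
  rw [h1]
  constructor
  · intro h
    rw [sub_eq_zero.1 h]
    exact (π x).2
  · intro h
    have := hπ ⟨x, h⟩
    rw [sub_eq_zero]
    exact (congrArg Subtype.val this).symm

theorem Gap.eq_small {Z : ι → Submodule ℝ V} {Z₀ : Submodule ℝ V} (h : Gap l Z Z₀)
    (q : V →L[ℝ] W) (hq : ∀ x ∈ Z₀, q x = 0) :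
    ∀ ε > 0, ∀ᶠ i in l, ∀ x ∈ Z i, ‖q x‖ ≤ ε * ‖x‖ := by
  intro ε hε
  filter_upwards [h (ε / (‖q‖ + 1)) (by positivity)] with i hi x hx
  obtain ⟨z, hz, hxz⟩ := hi x hx
  have h1 : q x = q (x - z) := by rw [map_sub, hq z hz, sub_zero]
  rw [h1]
  calc ‖q (x - z)‖ ≤ ‖q‖ * ‖x - z‖ := q.le_opNorm _
    _ ≤ (‖q‖ + 1) * (ε / (‖q‖ + 1) * ‖x‖) := by gcongr; linarith
    _ = ε * ‖x‖ := by field_simp

theorem SConv.toGap {Z : ι → Submodule ℝ V} {Z₀ : Submodule ℝ V} (h : SConv l Z Z₀) :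
    Gap l Z Z₀ := fun _ hε => h.gap hε

theorem Gap.inf {Z T : ι → Submodule ℝ V} {Z₀ T₀ : Submodule ℝ V} (h : Gap l Z Z₀)
    (h' : Gap l T T₀) : Gap l (fun i => Z i ⊓ T i) (Z₀ ⊓ T₀) := by
  obtain ⟨q, hq⟩ := exists_eqs Z₀
  obtain ⟨q', hq'⟩ := exists_eqs T₀
  refine gap_of_eq (q.prod q') (fun x hx => ?_) fun ε hε => ?_
  · rw [ContinuousLinearMap.prod_apply, Prod.mk_eq_zero] at hx
    exact ⟨(hq x).1 hx.1, (hq' x).1 hx.2⟩
  · filter_upwards [h.eq_small q (fun x hx => (hq x).2 hx) ε hε,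
      h'.eq_small q' (fun x hx => (hq' x).2 hx) ε hε] with i h1 h2 x hx
    rw [ContinuousLinearMap.prod_apply, Prod.norm_def]
    exact max_le (h1 x hx.1) (h2 x hx.2)

theorem Gap.comap {Z : ι → Submodule ℝ W} {Z₀ : Submodule ℝ W} (h : Gap l Z Z₀)
    (A : V →L[ℝ] W) :
    Gap l (fun i => (Z i).comap A.toLinearMap) (Z₀.comap A.toLinearMap) := by
  obtain ⟨q, hq⟩ := exists_eqs Z₀
  refine gap_of_eq (q ∘L A) (fun x hx => (hq _).1 hx) fun ε hε => ?_
  filter_upwards [h.eq_small q (fun x hx => (hq x).2 hx) (ε / (‖A‖ + 1)) (by positivity)]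
    with i h1 x hx
  calc ‖(q ∘L A) x‖ = ‖q (A x)‖ := rfl
    _ ≤ ε / (‖A‖ + 1) * ‖A x‖ := h1 _ hx
    _ ≤ ε / (‖A‖ + 1) * ((‖A‖ + 1) * ‖x‖) := by
      gcongr
      exact (A.le_opNorm x).trans (by gcongr; linarith)
    _ = ε * ‖x‖ := by field_simp

/-- The annihilator of a subspace for a bilinear map. -/
def Ann (B : V →L[ℝ] W →L[ℝ] ℝ) (Z : Submodule ℝ V) : Submodule ℝ W where
  carrier := {w | ∀ z ∈ Z, B z w = 0}
  add_mem' := by
    intro a b ha hb z hz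
    rw [map_add, ha z hz, hb z hz, add_zero]
  zero_mem' := fun z _ => map_zero _
  smul_mem' := by
    intro c a ha z hz
    rw [map_smul, ha z hz, smul_zero]

theorem mem_Ann {B : V →L[ℝ] W →L[ℝ] ℝ} {Z : Submodule ℝ V} {w : W} :
    w ∈ Ann B Z ↔ ∀ z ∈ Z, B z w = 0 := Iff.rfl

theorem SConv.gap_ann {Z : ι → Submodule ℝ V} {Z₀ : Submodule ℝ V} (h : SConv l Z Z₀)
    (B : V →L[ℝ] W →L[ℝ] ℝ) : Gap l (fun i => Ann B (Z i)) (Ann B Z₀) := by
  let q : W →L[ℝ] (Z₀ →L[ℝ] ℝ) := (B ∘L Z₀.subtypeL).flip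
  have hqa : ∀ w (z : Z₀), q w z = B z w := fun w z => rfl
  refine gap_of_eq (W := Z₀ →L[ℝ] ℝ) q (fun w hw z hz => ?_) fun ε hε => ?_
  · have := hqa w ⟨z, hz⟩
    rw [hw] at this
    exact this.symm
  · filter_upwards [h.gap' (ε := ε / (‖B‖ + 1)) (by positivity)] with i h1 w hw
    refine ContinuousLinearMap.opNorm_le_bound _ (by positivity) fun z => ?_
    obtain ⟨x, hx, hxz⟩ := h1 z z.2
    rw [hqa]
    have h2 : B z w = -(B (x - z) w) := by
      rw [map_sub, ContinuousLinearMap.sub_apply, hw x hx, zero_sub, neg_neg]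
    rw [h2, norm_neg]
    calc ‖B (x - z) w‖ ≤ ‖B (x - z)‖ * ‖w‖ := (B (x - z)).le_opNorm w
      _ ≤ (‖B‖ * ‖x - z‖) * ‖w‖ := by gcongr; exact B.le_opNorm _
      _ ≤ ((‖B‖ + 1) * (ε / (‖B‖ + 1) * ‖(z : V)‖)) * ‖w‖ := by gcongr; linarith
      _ = ε * ‖w‖ * ‖z‖ := by
        have : ‖(z : V)‖ = ‖z‖ := rfl
        rw [this]
        field_simp

/-! ### Dimension counts -/

/-- A lower bound for the dimension of a solution space. -/
theorem finrank_sol {P : Submodule ℝ V} {Q R : Submodule ℝ W} (f : V →ₗ[ℝ] W) (hQR : Q ≤ R)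
    (hPR : ∀ x ∈ P, f x ∈ R) :
    Module.finrank ℝ P + Module.finrank ℝ Q ≤
      Module.finrank ℝ (P ⊓ Q.comap f : Submodule ℝ V) + Module.finrank ℝ R := by
  -- the map `P → R ⧸ Q`
  let f' : P →ₗ[ℝ] R := (f.comp P.subtype).codRestrict R fun x => hPR x x.2
  let Q' : Submodule ℝ R := Q.comap R.subtype
  let g : P →ₗ[ℝ] (R ⧸ Q') := Q'.mkQ.comp f'
  have h1 := LinearMap.finrank_range_add_finrank_ker g
  have h2 : Module.finrank ℝ (LinearMap.range g) ≤ Module.finrank ℝ (R ⧸ Q') :=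
    Submodule.finrank_le _
  have h3 := Submodule.finrank_quotient_add_finrank Q'
  have h4 : Module.finrank ℝ Q' = Module.finrank ℝ Q :=
    (Submodule.comapSubtypeEquivOfLe hQR).finrank_eq
  have h5 : Module.finrank ℝ (LinearMap.ker g) ≤
      Module.finrank ℝ (P ⊓ Q.comap f : Submodule ℝ V) := by
    have h6 : (LinearMap.ker g).map P.subtype ≤ P ⊓ Q.comap f := by
      rintro _ ⟨x, hx, rfl⟩
      refine ⟨x.2, ?_⟩
      have h7 : Q'.mkQ (f' x) = 0 := hx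
      rw [Submodule.mkQ_apply, Submodule.Quotient.mk_eq_zero] at h7
      exact h7
    have h8 := Submodule.finrank_mono h6
    rwa [Submodule.finrank_map_subtype_eq] at h8
  omega

/-- An upper bound: image and kernel. -/
theorem finrank_le_map_add {P : Submodule ℝ V} (f : V →ₗ[ℝ] W) {a b : ℕ}
    (ha : Module.finrank ℝ (P.map f) ≤ a)
    (hb : Module.finrank ℝ (P ⊓ LinearMap.ker f : Submodule ℝ V) ≤ b) :
    Module.finrank ℝ P ≤ a + b := by
  have h1 := LinearMap.finrank_range_add_finrank_ker (f.domRestrict P)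
  have h2 : LinearMap.range (f.domRestrict P) = P.map f := by
    ext y
    simp
  have h5 : Module.finrank ℝ (LinearMap.ker (f.domRestrict P)) ≤
      Module.finrank ℝ (P ⊓ LinearMap.ker f : Submodule ℝ V) := by
    have h6 : (LinearMap.ker (f.domRestrict P)).map P.subtype ≤ P ⊓ LinearMap.ker f := by
      rintro _ ⟨x, hx, rfl⟩
      exact ⟨x.2, hx⟩
    have h8 := Submodule.finrank_mono h6
    rwa [Submodule.finrank_map_subtype_eq] at h8
  rw [h2] at h1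
  omega

end Pool.Agent.H35.SN
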