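import Pool.Agent.H35.SN.Closure
import Pool.Agent.H77.SN.Sec3C
import Pool.Agent.H77.SN.Sec2
import Pool.Agent.H59.Zar.RelNear

/-!
# The identity (*) at the points of the graphs (helper35)
-/

set_option autoImplicit false
set_option linter.unusedSectionVars false

open scoped InnerProductSpace Topology ContDiff
open Set Filter

namespace Pool.Agent.H35.SN

open Pool.Agent.H91.GE hiding G1 G11 Nondeg Br exists_br cF smooth_cF Cfg mem_TSet_of_map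
open Pool.Agent.H59.LV Pool.Agent.H59.ND Pool.Agent.H59.Zar Pool.Agent.H77.SN

variable {E F : Type*} [NormedAddCommGroup E] [InnerProductSpace ℝ E] [FiniteDimensional ℝ E]
  [NormedAddCommGroup F] [InnerProductSpace ℝ F] [FiniteDimensional ℝ F]
  {S : Set E} {A : E × E → E} {K K₂ : NNReal} {Φ : ℝ → E × E → E × E} {n m : ℕ}

theorem mem_UT_of_RR (h : GFlow F S A K K₂ Φ) (hdim : Module.finrank ℝ E = Module.finrank ℝ F + n)
    {q : (E × E) × (E × E)} (hq : q ∈ RR Φ S) : q.1 ∈ UT S ∧ q.2 ∈ UT S :=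
  (retRel h hdim).sub q hq

/-- Components of vectors of `ZT RR` are tangent to the unit tangent bundle. -/
theorem comp_mem (h : GFlow F S A K K₂ Φ) (hdim : Module.finrank ℝ E = Module.finrank ℝ F + n)
    {q z : (E × E) × (E × E)} (hz : z ∈ ZT (RR Φ S) q) :
    z.1 ∈ ZT (UT S) q.1 ∧ z.2 ∈ ZT (UT S) q.2 := by
  have h1 := map_mem_ZT_univ (R := RR Φ S) (R' := UT S) (Θ := (Prod.fst : (E × E) × (E × E) → E × E))
    contDiff_fst (fun q hq => (mem_UT_of_RR h hdim hq).1) hz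
  have h2 := map_mem_ZT_univ (R := RR Φ S) (R' := UT S) (Θ := (Prod.snd : (E × E) × (E × E) → E × E))
    contDiff_snd (fun q hq => (mem_UT_of_RR h hdim hq).2) hz
  rw [fderiv_fst] at h1
  rw [fderiv_snd] at h2
  exact ⟨h1, h2⟩

/-- The linear structure near a point of the graph. -/
theorem rl_near (h : GFlow F S A K K₂ Φ) (hdim : Module.finrank ℝ E = Module.finrank ℝ F + n)
    (hn : 1 ≤ n) {w : E × E} (hw : w ∈ OO Φ S m) (t : ℝ) :
    ∀ᶠ q in 𝓝[RR Φ S] (w, Φ t w), RL n m (ZT (RR Φ S) q) (ZT (UT S) q.1) (ZT (UT S) q.2)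
      (ZT S q.1.1) (ZT S q.2.1) (YY Φ S q.1) (YY Φ S q.2) := by
  have h' := retRel h hdim
  have hsub := h.sub
  have hgood := hw.1
  have hgood' := h'.good_flow hgood t
  have t1 : Tendsto (fun q : (E × E) × (E × E) => q.1) (𝓝[RR Φ S] (w, Φ t w)) (𝓝[UT S] w) := by
    refine tendsto_nhdsWithin_iff.2 ⟨(continuous_fst.tendsto _).mono_left nhdsWithin_le_nhds, ?_⟩
    filter_upwards [self_mem_nhdsWithin] with q hq
    exact (h'.sub q hq).1
  have t2 : Tendsto (fun q : (E × E) × (E × E) => q.2) (𝓝[RR Φ S] (w, Φ t w))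
      (𝓝[UT S] (Φ t w)) := by
    refine tendsto_nhdsWithin_iff.2 ⟨(continuous_snd.tendsto _).mono_left nhdsWithin_le_nhds, ?_⟩
    filter_upwards [self_mem_nhdsWithin] with q hq
    exact (h'.sub q hq).2
  filter_upwards [self_mem_nhdsWithin, h'.near hgood t, h'.rank_const hgood t,
    t1.eventually hgood.2, t2.eventually hgood'.2] with q hq hnear hrank hY1 hY2
  obtain ⟨hU1, hU2⟩ := h'.sub q hq
  have hYw : Module.finrank ℝ (Y (RS Φ S) w) = m := hw.2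
  have hYw' : Module.finrank ℝ (Y (RS Φ S) (Φ t w)) = m := by
    rw [h'.finrank_flow_Y hgood.1 t]; exact hYw
  exact {
    u1 := fun z hz => (comp_mem h hdim hz).1
    u2 := fun z hz => (comp_mem h hdim hz).2
    b1 := fun a ha => fst_mem_TS hU1 ha
    b2 := fun a ha => fst_mem_TS hU2 ha
    v1 := fun ξ hξ => ((ver_mem_iff hsub hU1).1 hξ).1
    v2 := fun ξ hξ => ((ver_mem_iff hsub hU2).1 hξ).1
    n1 := fun g hg he => (ver_mem_iff hsub hU1).2 ⟨hg, he _ ⟨_, X_mem_Y h hdim hU1, rfl⟩⟩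
    n2 := fun g hg he => (ver_mem_iff hsub hU2).2 ⟨hg, he _ ⟨_, X_mem_Y h hdim hU2, rfl⟩⟩
    y1 := hnear.2.1
    y2 := hnear.1
    fU1 := by rw [finrank_ZTU hdim hsub hU1]; omega
    fU2 := by rw [finrank_ZTU hdim hsub hU2]; omega
    fT1 := finrank_TS hdim hsub (fst_mem_TSet hU1.1)
    fT2 := finrank_TS hdim hsub (fst_mem_TSet hU2.1)
    fY1 := by show Module.finrank ℝ (Y (RS Φ S) q.1) = m; rw [hY1, hYw]
    fY2 := by show Module.finrank ℝ (Y (RS Φ S) q.2) = m; rw [hY2, hYw']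
    fZ := by
      have : Module.finrank ℝ (ZT (RR Φ S) q) = 2 * n - 1 + Module.finrank ℝ (Y (RS Φ S) w) := hrank
      rw [this, hYw]; omega }

/-- The Zariski tangent spaces of the relation converge at the points of the graph. -/
theorem sconv_ZT (h : GFlow F S A K K₂ Φ) (hdim : Module.finrank ℝ E = Module.finrank ℝ F + n)
    {w : E × E} (hw : w ∈ OO Φ S m) (t : ℝ) :
    SConv (𝓝[RR Φ S] (w, Φ t w)) (fun q => ZT (RR Φ S) q) (ZT (RR Φ S) (w, Φ t w)) := by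
  have h' := retRel h hdim
  obtain ⟨P, ⟨O, hO, hP⟩, hPZ⟩ := h'.exists_projR hw.1 t
  have hpR : (w, Φ t w) ∈ RR Φ S := h'.mem_flow hw.1.1 t
  have hP0 := hPZ.self_of_nhdsWithin hpR
  have hPc : ContinuousAt P (w, Φ t w) := (hP.contDiffAt hO).continuousAt
  refine SConv.of_approx (fun v hv => ⟨fun q => P q v, ?_, ?_⟩) ?_
  · have h1 : Tendsto P (𝓝[RR Φ S] (w, Φ t w)) (𝓝 (P (w, Φ t w))) :=
      hPc.tendsto.mono_left nhdsWithin_le_nhds
    have h2 := tendsto_clm_apply h1 (tendsto_const_nhds (x := v))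
    rw [hP0.2 v hv] at h2
    exact h2
  · filter_upwards [hPZ] with q hq
    exact hq.1 v
  · filter_upwards [h'.rank_const hw.1 t] with q hq
    rw [hq, (h'.rank_const hw.1 t).self_of_nhdsWithin hpR]

/-- The vector of `Y` attached to a vertical pair. -/
theorem mem_TZ_graph (h : GFlow F S A K K₂ Φ) (hdim : Module.finrank ℝ E = Module.finrank ℝ F + n)
    {w : E × E} (hw : w ∈ UT S) (t : ℝ) {ξ : E × E} (hξ : ξ ∈ TZ Φ S (w, Φ t w)) :
    ((0, ξ.1) : E × E) ∈ ZT (UT S) w ∧ ((0, ξ.2) : E × E) ∈ ZT (UT S) (Φ t w) ∧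
      ((0, ξ.1) : E × E) - fderiv ℝ (Φ (-t)) (Φ t w) (0, ξ.2) ∈ YY Φ S w ∧
      ⟪w.2, (fderiv ℝ (Φ (-t)) (Φ t w) (0, ξ.2)).1⟫_ℝ = 0 := by
  have h' := retRel h hdim
  have hξ' : (((0, ξ.1), (0, ξ.2)) : (E × E) × (E × E)) ∈ ZT (RR Φ S) (w, Φ t w) := hξ
  obtain ⟨h1, h2⟩ := comp_mem h hdim hξ'
  have h3 : fderiv ℝ (Φ t) w (fderiv ℝ (Φ (-t)) (Φ t w) ((0, ξ.2) : E × E)) = (0, ξ.2) :=
    h'.fderiv_inv' t w _
  have h4 := (h'.mem_graph (a := ((0, ξ.1) : E × E))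
    (b := fderiv ℝ (Φ (-t)) (Φ t w) ((0, ξ.2) : E × E)) hw t).1 (by rw [h3]; exact hξ')
  have h5 := theta_flow h (flow_mem_UT h hw t) h2 (-t)
  rw [flow_inv h] at h5
  refine ⟨h1, h2, h4.2, h5.trans (inner_zero_right _)⟩

/-- The nondegenerate transverse points of the graphs. -/
theorem rn_graph (h : GFlow F S A K K₂ Φ) (hdim : Module.finrank ℝ E = Module.finrank ℝ F + n)
    (hn : 1 ≤ n) {w : E × E} (hw : w ∈ OO Φ S m) {t : ℝ} (hnd : NDeg Φ S w t) (h1 : Tr Φ S w)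
    (h2 : Tr Φ S (Φ t w))
    (hE : ∀ ξ ∈ TZ Φ S (w, Φ t w), (∀ e ∈ TT Φ S w, ⟪ξ.1, e⟫_ℝ = 0) → ξ.1 = 0) :
    RN n m (ZT (RR Φ S) (w, Φ t w)) (ZT (UT S) w) (ZT (UT S) (Φ t w))
      (ZT S w.1) (ZT S (Φ t w).1) (YY Φ S w) (YY Φ S (Φ t w)) := by
  have h' := retRel h hdim
  have hU := hw.1.1
  have hU' := flow_mem_UT h hU t
  have hsub := h.sub
  have hpR : (w, Φ t w) ∈ RR Φ S := h'.mem_flow hU t
  have hRL := (rl_near h hdim hn hw t).self_of_nhdsWithin hpR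
  have hX : ((w.2, A w) : E × E) ∈ YY Φ S w := X_mem_Y h hdim hU
  have hww : ⟪w.2, w.2⟫_ℝ = 1 := by
    rw [real_inner_self_eq_norm_sq, hU.2]; norm_num
  -- the map `ξ ↦ K`
  let φ : (E × E) →ₗ[ℝ] (E × E) := (LinearMap.inr ℝ E E) ∘ₗ (LinearMap.fst ℝ E E) -
    (fderiv ℝ (Φ (-t)) (Φ t w)).toLinearMap ∘ₗ (LinearMap.inr ℝ E E) ∘ₗ (LinearMap.snd ℝ E E)
  have hφ : ∀ ξ, φ ξ = ((0, ξ.1) : E × E) - fderiv ℝ (Φ (-t)) (Φ t w) (0, ξ.2) := fun ξ => rfl
  have hφinj : ∀ ξ ∈ TZ Φ S (w, Φ t w), φ ξ = 0 → ξ = 0 := by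
    intro ξ hξ h0
    rw [hφ, sub_eq_zero] at h0
    have h3 : fderiv ℝ (Φ t) w (fderiv ℝ (Φ (-t)) (Φ t w) ((0, ξ.2) : E × E)) = (0, ξ.2) :=
      h'.fderiv_inv' t w _
    rw [← h0] at h3
    obtain ⟨h4, -, -, -⟩ := mem_TZ_graph h hdim hU t hξ
    have h5 : ξ.1 = 0 := hnd ξ.1 ((ver_mem_iff hsub hU).1 h4).1 (by rw [h3])
    rw [h5] at h3
    have h6 : ((0 : E), (0 : E)) = ((0, ξ.2) : E × E) := by
      have h7 : fderiv ℝ (Φ t) w ((0 : E), (0 : E)) = 0 := map_zero _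
      rw [← h3, h7]
      rfl
    have h7 : ξ.2 = 0 := (congrArg Prod.snd h6).symm
    exact Prod.ext h5 h7
  have hfst : ∀ ξ ∈ TZ Φ S (w, Φ t w), ξ.1 = 0 → ξ = 0 := by
    rintro ⟨a, b⟩ hξ h0
    have h0' : a = 0 := h0
    subst h0'
    have h3 : ((0, b) : E × E) ∈ YY Φ S (Φ t w) := (hRL.y2 _).1 hξ
    have h4 := h2 _ h3 rfl
    have h5 : b = 0 := congrArg Prod.snd h4
    rw [h5]
    rfl
  -- `nd`
  have hYw : Module.finrank ℝ (YY Φ S w) = m := hw.2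
  have hθ : Module.finrank ℝ (YY Φ S w ⊓ (LinearMap.ker ((innerₗ E w.2) ∘ₗ
      (LinearMap.fst ℝ E E))) : Submodule ℝ (E × E)) < m := by
    rw [← hYw]
    refine Submodule.finrank_lt_finrank_of_lt (lt_of_le_of_ne inf_le_left fun he => ?_)
    have h3 : ((w.2, A w) : E × E) ∈ (YY Φ S w ⊓ (LinearMap.ker ((innerₗ E w.2) ∘ₗ
      (LinearMap.fst ℝ E E))) : Submodule ℝ (E × E)) := by rw [he]; exact hX
    have h4 : ⟪w.2, w.2⟫_ℝ = 0 := h3.2
    rw [hww] at h4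
    exact one_ne_zero h4
  have hnd' : Module.finrank ℝ (TZl (ZT (RR Φ S) (w, Φ t w))) + 1 ≤ m := by
    refine lt_of_le_of_lt (finrank_le_of_inj_on φ ?_ hφinj) hθ
    intro ξ hξ
    obtain ⟨-, -, h3, h4⟩ := mem_TZ_graph h hdim hU t hξ
    refine ⟨h3, ?_⟩
    show ⟪w.2, (((0, ξ.1) : E × E) - fderiv ℝ (Φ (-t)) (Φ t w) (0, ξ.2)).1⟫_ℝ = 0
    rw [Prod.fst_sub, inner_sub_right, h4, inner_zero_right, sub_zero]
  have e1 : ∀ ξ ∈ TZl (ZT (RR Φ S) (w, Φ t w)), (∀ e ∈ TTl (YY Φ S w), ⟪e, ξ.1⟫_ℝ = 0) →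
      ξ.1 = 0 := fun ξ hξ he => hE ξ hξ fun e he' => by rw [real_inner_comm]; exact he e he'
  refine { hRL with tr1 := h1, tr2 := h2, nd := hnd', e1 := e1, e2 := ?_ }
  -- `e2` by the invariance of `om`
  intro ξ hξ hperp
  obtain ⟨a1, a2, a3, a4⟩ := mem_TZ_graph h hdim hU t hξ
  set KK : E × E := ((0, ξ.1) : E × E) - fderiv ℝ (Φ (-t)) (Φ t w) (0, ξ.2) with hKK
  have hle : Module.finrank ℝ F ≤ Module.finrank ℝ E := by omega
  -- `K.1` is orthogonal to all `η.1`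
  have horth : ∀ η ∈ TZ Φ S (w, Φ t w), ⟪KK.1, η.1⟫_ℝ = 0 := by
    intro η hη
    obtain ⟨b1, b2, b3, b4⟩ := mem_TZ_graph h hdim hU t hη
    set J : E × E := ((0, η.1) : E × E) - fderiv ℝ (Φ (-t)) (Φ t w) (0, η.2) with hJ
    have hJU : J ∈ ZT (UT S) w := h'.Y_le hU b3
    have hη1 : ((0, η.1) : E × E) = J + fderiv ℝ (Φ (-t)) (Φ t w) (0, η.2) := by
      rw [hJ, sub_add_cancel]
    -- first computation
    have c1 : om (fderiv ℝ (Φ (-t)) (Φ t w) ((0, ξ.2) : E × E)) ((0, η.1) : E × E) = 0 := by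
      have hDξ : fderiv ℝ (Φ (-t)) (Φ t w) ((0, ξ.2) : E × E) ∈ ZT (UT S) w := by
        have := flow_ZTU_mem h a2 (-t)
        rwa [flow_inv h] at this
      have hDη : fderiv ℝ (Φ (-t)) (Φ t w) ((0, η.2) : E × E) ∈ ZT (UT S) w := by
        have := flow_ZTU_mem h b2 (-t)
        rwa [flow_inv h] at this
      rw [hη1, map_add]
      have d1 : om (fderiv ℝ (Φ (-t)) (Φ t w) ((0, ξ.2) : E × E)) J = 0 := by
        rw [← om_flowU h hle hU hDξ hJU t, h'.fderiv_inv' t w]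
        have d2 : fderiv ℝ (Φ t) w J ∈ YY Φ S (Φ t w) := (h'.flow_Y hU t).2 b3
        have d3 := hperp _ ⟨_, d2, rfl⟩
        rw [om_apply]
        show ⟪(0 : E), (fderiv ℝ (Φ t) w J).2⟫_ℝ - ⟪(fderiv ℝ (Φ t) w J).1, ξ.2⟫_ℝ = 0
        rw [inner_zero_left, zero_sub, neg_eq_zero]
        exact d3
      have d4 : om (fderiv ℝ (Φ (-t)) (Φ t w) ((0, ξ.2) : E × E))
          (fderiv ℝ (Φ (-t)) (Φ t w) ((0, η.2) : E × E)) = 0 := by
        rw [om_flowU h hle hU' a2 b2 (-t), om_apply]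
        show ⟪(0 : E), η.2⟫_ℝ - ⟪(0 : E), ξ.2⟫_ℝ = 0
        rw [inner_zero_left, inner_zero_left, sub_zero]
      rw [d1, d4, add_zero]
    have c2 : fderiv ℝ (Φ (-t)) (Φ t w) ((0, ξ.2) : E × E) = ((0, ξ.1) : E × E) - KK := by
      rw [hKK, sub_sub_cancel]
    rw [c2, om_apply] at c1
    have c3 : ⟪(((0, ξ.1) : E × E) - KK).1, η.1⟫_ℝ - ⟪(0 : E), (((0, ξ.1) : E × E) - KK).2⟫_ℝ = 0 := c1
    rw [inner_zero_left, sub_zero, Prod.fst_sub, inner_sub_left, inner_zero_left, zero_sub,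
      neg_eq_zero] at c3
    exact c3
  -- `K.1 ∈ A := TT w ∩ w^⊥`
  have hKKw : ⟪w.2, KK.1⟫_ℝ = 0 := by
    rw [hKK, Prod.fst_sub, inner_sub_right, a4, inner_zero_right, sub_zero]
  have hKT : KK.1 ∈ TTl (YY Φ S w) := ⟨KK, a3, rfl⟩
  have hK0 : KK.1 = 0 := by
    by_contra hne
    -- the subspace of `TT w` orthogonal to `w` and to `K.1`
    let B : Submodule ℝ E := (TZ Φ S (w, Φ t w)).map (LinearMap.fst ℝ E E)
    let D : Submodule ℝ E := TTl (YY Φ S w) ⊓ (LinearMap.ker (innerₗ E w.2)) ⊓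
      (LinearMap.ker (innerₗ E KK.1))
    have hB : Module.finrank ℝ (TZ Φ S (w, Φ t w)) ≤ Module.finrank ℝ B :=
      finrank_le_of_inj_on (LinearMap.fst ℝ E E) (fun x hx => ⟨x, hx, rfl⟩) hfst
    have hBD : Module.finrank ℝ B ≤ Module.finrank ℝ D := by
      have h3 := finrank_ann (ip (E := E)) B D
      have h4 : B ⊓ Ann ip D = ⊥ := by
        rw [eq_bot_iff]
        rintro _ ⟨⟨η, hη, rfl⟩, h5⟩
        rw [Submodule.mem_bot]
        refine e1 η hη fun e he => ?_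
        have hηw : ⟪w.2, η.1⟫_ℝ = 0 := by
          obtain ⟨b1, -, -, -⟩ := mem_TZ_graph h hdim hU t hη
          exact ((ver_mem_iff hsub hU).1 b1).2
        -- decompose `e`
        have hk0 : ⟪KK.1, KK.1⟫_ℝ ≠ 0 := fun h6 => hne (inner_self_eq_zero.1 h6)
        let c : ℝ := ⟪w.2, e⟫_ℝ
        let d : ℝ := ⟪KK.1, e⟫_ℝ / ⟪KK.1, KK.1⟫_ℝ
        have hkw : ⟪KK.1, w.2⟫_ℝ = 0 := by rw [real_inner_comm]; exact hKKw
        have h6 : e - c • w.2 - d • KK.1 ∈ D := by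
          refine ⟨⟨Submodule.sub_mem _ (Submodule.sub_mem _ he (Submodule.smul_mem _ _ ?_))
            (Submodule.smul_mem _ _ hKT), ?_⟩, ?_⟩
          · exact ⟨_, hX, rfl⟩
          · show ⟪w.2, e - c • w.2 - d • KK.1⟫_ℝ = 0
            rw [inner_sub_right, inner_sub_right, inner_smul_right, inner_smul_right, hww, hKKw]
            simp [c]
          · show ⟪KK.1, e - c • w.2 - d • KK.1⟫_ℝ = 0
            rw [inner_sub_right, inner_sub_right, inner_smul_right, inner_smul_right, hkw]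
            simp only [d]
            field_simp
            ring
        have h7 : ⟪e - c • w.2 - d • KK.1, η.1⟫_ℝ = 0 := h5 _ h6
        rw [inner_sub_left, inner_sub_left, inner_smul_left, inner_smul_left, hηw,
          horth η hη] at h7
        simpa using h7
      rw [h4, finrank_bot, zero_add] at h3
      exact h3
    -- dimension of `D`
    have hTT : Module.finrank ℝ (TTl (YY Φ S w)) ≤ m := by
      rw [← hYw]; exact finrank_TTl_le _
    have hD1 : Module.finrank ℝ (TTl (YY Φ S w) ⊓ (LinearMap.ker (innerₗ E w.2)) :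
        Submodule ℝ E) < Module.finrank ℝ (TTl (YY Φ S w)) := by
      refine Submodule.finrank_lt_finrank_of_lt (lt_of_le_of_ne inf_le_left fun he => ?_)
      have h3 : w.2 ∈ (TTl (YY Φ S w) ⊓ (LinearMap.ker (innerₗ E w.2)) : Submodule ℝ E) := by
        rw [he]; exact ⟨_, hX, rfl⟩
      have h4 : ⟪w.2, w.2⟫_ℝ = 0 := h3.2
      rw [hww] at h4
      exact one_ne_zero h4
    have hD2 : Module.finrank ℝ D < Module.finrank ℝ (TTl (YY Φ S w) ⊓
        (LinearMap.ker (innerₗ E w.2)) : Submodule ℝ E) := by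
      refine Submodule.finrank_lt_finrank_of_lt (lt_of_le_of_ne inf_le_left fun he => ?_)
      have h3 : KK.1 ∈ D := by
        rw [he]; exact ⟨hKT, hKKw⟩
      have h4 : ⟪KK.1, KK.1⟫_ℝ = 0 := h3.2
      exact hne (inner_self_eq_zero.1 h4)
    have h3 := hRL.c1
    have h4 : Module.finrank ℝ (TZl (ZT (RR Φ S) (w, Φ t w))) =
        Module.finrank ℝ (TZ Φ S (w, Φ t w)) := rfl
    omega
  have h3 : KK = 0 := h1 _ a3 hK0
  have h4 := hφinj ξ hξ h3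
  rw [h4]
  rfl

/-- **(*)** at `(w, Φ t w)`. -/
theorem star_graph' (h : GFlow F S A K K₂ Φ) (hdim : Module.finrank ℝ E = Module.finrank ℝ F + n)
    (hn : 2 ≤ n) (hsec : Secure S) {w : E × E} (hw : w ∈ OO Φ S m) {t : ℝ}
    (hnd : NDeg Φ S w t) (h1 : Tr Φ S w) (h2 : Tr Φ S (Φ t w))
    (hE : ∀ ξ ∈ TZ Φ S (w, Φ t w), (∀ e ∈ TT Φ S w, ⟪ξ.1, e⟫_ℝ = 0) → ξ.1 = 0) :
    Star Φ S (w, Φ t w) := by
  have h' := retRel h hdim
  have hpR : (w, Φ t w) ∈ RR Φ S := h'.mem_flow hw.1.1 t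
  have hRN := rn_graph h hdim (by omega) hw hnd h1 h2 hE
  have hRL := rl_near h hdim (by omega) hw t
  have hZ := sconv_ZT h hdim hw t
  have hnear := e1_near hZ hRL hRN
  -- (*) is frequent
  have hfreq : ∃ᶠ q in 𝓝[RR Φ S] (w, Φ t w), Star Φ S q := by
    intro hcon
    rw [eventually_nhdsWithin_iff] at hcon
    have hnear' := eventually_nhdsWithin_iff.1 hnear
    obtain ⟨w', L, hO, hw', hj⟩ := exists_JR h hdim hn hsec hpR hw (hcon.and hnear')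
    have hqR : (w', Φ L w') ∈ RR Φ S := h'.mem_flow hw'.1.1 L
    refine hO.1 hqR (star_of_JR h hdim hj fun ξ hξ he => ?_)
    exact hO.2 hqR ξ hξ fun e he' => by rw [real_inner_comm]; exact he e he'
  -- the limit
  let l : Filter ((E × E) × (E × E)) := 𝓝[RR Φ S] (w, Φ t w) ⊓ 𝓟 {q | Star Φ S q}
  have hne : l.NeBot := frequently_iff_neBot.1 hfreq
  have hl : l ≤ 𝓝[RR Φ S] (w, Φ t w) := inf_le_left
  have hs : ∀ᶠ q in l, Starl (ZT (RR Φ S) q) (ZT S q.1.1) (ZT S q.2.1) (YY Φ S q.1) (YY Φ S q.2) := by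
    have h3 : ∀ᶠ q in 𝓟 {q | Star Φ S q}, Star Φ S q := eventually_principal.2 fun q hq => hq
    exact (h3.filter_mono inf_le_right)
  exact starl_closure (hZ.mono hl) (hRL.filter_mono hl) hRN hs

end Pool.Agent.H35.SN
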