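import Mathlib

/-!
# Convergence of families of subspaces of a finite-dimensional space (helper35)

`SConv l Z Z₀`: the subspaces `Z i` converge to `Z₀` along the filter `l` (eventually the same
dimension, and every vector of `Z₀` is a limit of vectors of `Z i`).
-/

set_option autoImplicit false
set_option linter.unusedSectionVars false

open scoped Topology InnerProductSpace
open Set Filter

namespace Pool.Agent.H35.SN

variable {ι : Type*} {V W : Type*} [NormedAddCommGroup V] [NormedSpace ℝ V] [FiniteDimensional ℝ V]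
  [NormedAddCommGroup W] [NormedSpace ℝ W] [FiniteDimensional ℝ W]

/-- Pointwise convergence of linear maps is convergence (finite dimension). -/
theorem tendsto_clm {X : Type*} [NormedAddCommGroup X] [NormedSpace ℝ X] [FiniteDimensional ℝ X]
    {l : Filter ι} {L : ι → (X →L[ℝ] V)} {M : X →L[ℝ] V}
    (h : ∀ y, Tendsto (fun i => L i y) l (𝓝 (M y))) : Tendsto L l (𝓝 M) := by
  let e : (X →L[ℝ] V) ≃L[ℝ] Fin (Module.finrank ℝ X) → V :=
    ((ContinuousLinearEquiv.ofFinrankEq (Module.finrank_fin_fun ℝ).symm).arrowCongr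
      (1 : V ≃L[ℝ] V)).trans (ContinuousLinearEquiv.piRing _)
  rw [e.toHomeomorph.isInducing.tendsto_nhds_iff]
  exact tendsto_pi_nhds.2 fun i => h _

theorem tendsto_clm_apply {X : Type*} [NormedAddCommGroup X] [NormedSpace ℝ X]
    {l : Filter ι} {L : ι → (X →L[ℝ] V)} {M : X →L[ℝ] V} (h : Tendsto L l (𝓝 M))
    {x : ι → X} {x₀ : X} (hx : Tendsto x l (𝓝 x₀)) : Tendsto (fun i => L i (x i)) l (𝓝 (M x₀)) := by
  have h1 : Tendsto (fun i => (L i, x i)) l (𝓝 (M, x₀)) := h.prodMk_nhds hx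
  have h2 : Continuous fun p : (X →L[ℝ] V) × X => p.1 p.2 :=
    isBoundedBilinearMap_apply.continuous
  exact (h2.tendsto (M, x₀)).comp h1

/-- Convergence of subspaces along a filter. -/
def SConv (l : Filter ι) (Z : ι → Submodule ℝ V) (Z₀ : Submodule ℝ V) : Prop :=
  ∃ L : ι → (Z₀ →L[ℝ] V), Tendsto L l (𝓝 Z₀.subtypeL) ∧
    ∀ᶠ i in l, LinearMap.range (L i).toLinearMap = Z i

variable {l : Filter ι} {Z T : ι → Submodule ℝ V} {Z₀ T₀ : Submodule ℝ V}

/-- Near the inclusion, a linear map is injective with a bound. -/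
theorem bound_of_near {L : Z₀ →L[ℝ] V} {ε : ℝ} (h : ‖L - Z₀.subtypeL‖ ≤ ε) (z : Z₀) :
    ‖L z - (z : V)‖ ≤ ε * ‖z‖ ∧ (1 - ε) * ‖z‖ ≤ ‖L z‖ := by
  have h1 : ‖L z - (z : V)‖ ≤ ε * ‖z‖ := by
    have := (L - Z₀.subtypeL).le_of_opNorm_le h z
    simpa using this
  refine ⟨h1, ?_⟩
  have h2 : ‖(z : V)‖ ≤ ‖L z‖ + ‖L z - (z : V)‖ := by
    have := norm_sub_le (L z) (L z - (z : V))
    rwa [sub_sub_cancel] at this
  have h3 : ‖(z : V)‖ = ‖z‖ := rfl
  nlinarith

theorem eventually_near {L : ι → (Z₀ →L[ℝ] V)} (hL : Tendsto L l (𝓝 Z₀.subtypeL)) {ε : ℝ}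
    (hε : 0 < ε) : ∀ᶠ i in l, ‖L i - Z₀.subtypeL‖ ≤ ε := by
  have h0 : ∀ᶠ i in l, dist (L i) Z₀.subtypeL < ε :=
    (Metric.tendsto_nhds (α := Z₀ →L[ℝ] V) (a := Z₀.subtypeL) (u := L) (f := l)).1 hL ε hε
  filter_upwards [h0] with i hi
  calc ‖L i - Z₀.subtypeL‖ = dist (L i) Z₀.subtypeL :=
        (dist_eq_norm (E := Z₀ →L[ℝ] V) (L i) Z₀.subtypeL).symm
    _ ≤ ε := hi.le

theorem injective_of_near {L : Z₀ →L[ℝ] V} {ε : ℝ} (hε : ε < 1) (h : ‖L - Z₀.subtypeL‖ ≤ ε) :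
    Function.Injective L := by
  rw [injective_iff_map_eq_zero]
  intro z hz
  have h1 := (bound_of_near h z).2
  rw [hz, norm_zero] at h1
  have h2 : ‖z‖ ≤ 0 := by
    by_contra hne
    push Not at hne
    nlinarith
  exact norm_le_zero_iff.1 h2

theorem SConv.finrank_eq (h : SConv l Z Z₀) :
    ∀ᶠ i in l, Module.finrank ℝ (Z i) = Module.finrank ℝ Z₀ := by
  obtain ⟨L, hL, hr⟩ := h
  filter_upwards [eventually_near hL (ε := 1 / 2) (by norm_num), hr] with i h1 h2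
  rw [← h2]
  exact LinearMap.finrank_range_of_inj (injective_of_near (by norm_num) h1)

/-- The gap in one direction. -/
theorem SConv.gap (h : SConv l Z Z₀) {ε : ℝ} (hε : 0 < ε) :
    ∀ᶠ i in l, ∀ x ∈ Z i, ∃ z ∈ Z₀, ‖x - z‖ ≤ ε * ‖x‖ := by
  obtain ⟨L, hL, hr⟩ := h
  have hδ : 0 < min (1 / 2) (ε / 2) := by positivity
  filter_upwards [eventually_near hL hδ, hr] with i h1 h2 x hx
  rw [← h2] at hx
  obtain ⟨z, rfl⟩ := hx
  refine ⟨z, z.2, ?_⟩
  obtain ⟨h3, h4⟩ := bound_of_near h1 z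
  have h5 : min (1 / 2) (ε / 2) ≤ (1 / 2 : ℝ) := min_le_left _ _
  have h6 : min (1 / 2) (ε / 2) ≤ ε / 2 := min_le_right _ _
  have h7 := norm_nonneg z
  show ‖L i z - z‖ ≤ ε * ‖L i z‖
  have h8 : (1 / 2) * ‖z‖ ≤ ‖L i z‖ := by nlinarith
  nlinarith

/-- The gap in the other direction: approximation. -/
theorem SConv.gap' (h : SConv l Z Z₀) {ε : ℝ} (hε : 0 < ε) :
    ∀ᶠ i in l, ∀ z ∈ Z₀, ∃ x ∈ Z i, ‖x - z‖ ≤ ε * ‖z‖ := by
  obtain ⟨L, hL, hr⟩ := h
  filter_upwards [eventually_near hL hε, hr] with i h1 h2 z hz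
  refine ⟨L i ⟨z, hz⟩, ?_, (bound_of_near h1 ⟨z, hz⟩).1⟩
  rw [← h2]
  exact ⟨⟨z, hz⟩, rfl⟩

theorem SConv.approx (h : SConv l Z Z₀) {v : V} (hv : v ∈ Z₀) :
    ∃ x : ι → V, Tendsto x l (𝓝 v) ∧ (∀ᶠ i in l, x i ∈ Z i) := by
  obtain ⟨L, hL, hr⟩ := h
  refine ⟨fun i => L i ⟨v, hv⟩, ?_, ?_⟩
  · have h1 : Tendsto (fun i => L i ⟨v, hv⟩) l (𝓝 (Z₀.subtypeL ⟨v, hv⟩)) :=
      tendsto_clm_apply hL tendsto_const_nhds
    exact h1
  · filter_upwards [hr] with i h2
    rw [← h2]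
    exact ⟨⟨v, hv⟩, rfl⟩

/-- Limits of vectors of `Z i` are in `Z₀`. -/
theorem SConv.mem_of_tendsto [l.NeBot] (h : SConv l Z Z₀) {x : ι → V} {v : V}
    (hx : Tendsto x l (𝓝 v)) (hm : ∀ᶠ i in l, x i ∈ Z i) : v ∈ Z₀ := by
  have hcl : IsClosed (Z₀ : Set V) := Z₀.closed_of_finiteDimensional
  have h1 : v ∈ closure (Z₀ : Set V) := by
    rw [Metric.mem_closure_iff]
    intro ε hε
    have hb : ∀ᶠ i in l, ‖x i‖ ≤ ‖v‖ + 1 :=
      (hx.norm.eventually (gt_mem_nhds (lt_add_one ‖v‖))).mono fun i hi => hi.le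
    have hd : ∀ᶠ i in l, dist (x i) v < ε / 2 := (Metric.tendsto_nhds.1 hx) _ (by positivity)
    have hδ : 0 < ε / 2 / (‖v‖ + 2) := by positivity
    obtain ⟨i, h2, h3, h4, h5⟩ := (hb.and (hd.and (hm.and (h.gap hδ)))).exists
    obtain ⟨z, hz, h6⟩ := h5 _ h4
    refine ⟨z, hz, ?_⟩
    have h7 : ε / 2 / (‖v‖ + 2) * ‖x i‖ < ε / 2 := by
      have h8 : ‖x i‖ < ‖v‖ + 2 := by linarith
      have h9 : (0 : ℝ) < ‖v‖ + 2 := by positivity
      calc ε / 2 / (‖v‖ + 2) * ‖x i‖ < ε / 2 / (‖v‖ + 2) * (‖v‖ + 2) := by gcongr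
        _ = ε / 2 := by field_simp
    calc dist v z ≤ dist v (x i) + dist (x i) z := dist_triangle _ _ _
      _ < ε / 2 + ε / 2 := by
        rw [dist_comm v]
        rw [dist_eq_norm (x i) z]
        linarith
      _ = ε := by ring
  rwa [hcl.closure_eq] at h1

/-- Criterion by approximants. -/
theorem SConv.of_approx (h : ∀ v ∈ Z₀, ∃ x : ι → V, Tendsto x l (𝓝 v) ∧ ∀ᶠ i in l, x i ∈ Z i)
    (hd : ∀ᶠ i in l, Module.finrank ℝ (Z i) ≤ Module.finrank ℝ Z₀) : SConv l Z Z₀ := by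
  classical
  choose! x hx hm using h
  let b := Module.finBasis ℝ Z₀
  let L : ι → (Z₀ →L[ℝ] V) := fun i =>
    LinearMap.toContinuousLinearMap (b.constr ℝ fun k => x (b k) i)
  have hLb : ∀ i k, L i (b k) = x (b k) i := by
    intro i k
    show (b.constr ℝ fun k => x (b k) i) (b k) = _
    rw [Module.Basis.constr_basis]
  have hL : Tendsto L l (𝓝 Z₀.subtypeL) := by
    have h1 : ∀ z : Z₀, Tendsto (fun i => L i z) l (𝓝 (Z₀.subtypeL z)) := by
      intro z
      have h2 : ∀ M : Z₀ →L[ℝ] V, M z = ∑ k, b.repr z k • M (b k) := by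
        intro M
        conv_lhs => rw [← b.sum_repr z]
        rw [map_sum]
        simp only [map_smul]
      have h3 : (fun i => L i z) = fun i => ∑ k, b.repr z k • x (b k) i := by
        funext i
        rw [h2 (L i)]
        simp only [hLb]
      rw [h3, h2 Z₀.subtypeL]
      refine tendsto_finsetSum _ fun k _ => ?_
      exact (hx (b k) (b k).2).const_smul _
    exact tendsto_clm h1
  refine ⟨L, hL, ?_⟩
  have hmem : ∀ᶠ i in l, ∀ k, x (b k) i ∈ Z i :=
    eventually_all.2 fun k => hm (b k) (b k).2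
  filter_upwards [eventually_near hL (ε := 1 / 2) (by norm_num), hd, hmem] with i h1 h2 h3
  have h4 : LinearMap.range (L i).toLinearMap ≤ Z i := by
    rintro _ ⟨z, rfl⟩
    have h5 : L i z = ∑ k, b.repr z k • x (b k) i := by
      conv_lhs => rw [← b.sum_repr z]
      rw [map_sum]
      simp only [map_smul, hLb]
    show L i z ∈ Z i
    rw [h5]
    exact Submodule.sum_mem _ fun k _ => Submodule.smul_mem _ _ (h3 k)
  refine Submodule.eq_of_le_of_finrank_le h4 ?_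
  have h5 : Module.finrank ℝ (LinearMap.range (L i).toLinearMap) = Module.finrank ℝ Z₀ :=
    LinearMap.finrank_range_of_inj (injective_of_near (by norm_num) h1)
  rw [h5]
  exact h2

/-- Criterion by the gap. -/
theorem SConv.of_gap (h : ∀ ε > 0, ∀ᶠ i in l, ∀ x ∈ Z i, ∃ z ∈ Z₀, ‖x - z‖ ≤ ε * ‖x‖)
    (hd : ∀ᶠ i in l, Module.finrank ℝ Z₀ ≤ Module.finrank ℝ (Z i)) : SConv l Z Z₀ := by
  classical
  obtain ⟨C, hC⟩ := Z₀.exists_isCompl
  -- a continuous projection onto `Z₀`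
  let π : V →L[ℝ] Z₀ := LinearMap.toContinuousLinearMap (Submodule.projectionOnto Z₀ C hC)
  have hπ : ∀ z : Z₀, π z = z := fun z => Submodule.projectionOnto_apply_left hC z
  set B : ℝ := ‖π‖ + 1 with hB
  have hB0 : 0 < B := by positivity
  -- the basic estimate
  have key : ∀ ε > 0, ∀ᶠ i in l, ∀ x ∈ Z i, ‖x - (π x : V)‖ ≤ ε * ‖x‖ := by
    intro ε hε
    filter_upwards [h (ε / (B + 1)) (by positivity)] with i hi x hx
    obtain ⟨z, hz, hxz⟩ := hi x hx
    have h1 : x - (π x : V) = (x - z) - (π (x - z) : V) := by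
      rw [map_sub]
      have : π z = ⟨z, hz⟩ := hπ ⟨z, hz⟩
      rw [this]
      simp
    rw [h1]
    have h2 : ‖(π (x - z) : V)‖ ≤ B * ‖x - z‖ := by
      have h3 : ‖π (x - z)‖ ≤ ‖π‖ * ‖x - z‖ := π.le_opNorm _
      have h4 : ‖(π (x - z) : V)‖ = ‖π (x - z)‖ := rfl
      rw [h4]
      have := norm_nonneg (x - z)
      nlinarith
    calc ‖(x - z) - (π (x - z) : V)‖ ≤ ‖x - z‖ + ‖(π (x - z) : V)‖ := norm_sub_le _ _
      _ ≤ ‖x - z‖ + B * ‖x - z‖ := by linarith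
      _ = (B + 1) * ‖x - z‖ := by ring
      _ ≤ (B + 1) * (ε / (B + 1) * ‖x‖) := by gcongr
      _ = ε * ‖x‖ := by field_simp
  -- `π` restricted to `Z i` is bijective
  have hinj : ∀ᶠ i in l, Function.Injective (π.toLinearMap.domRestrict (Z i)) := by
    filter_upwards [key (1 / 2) (by norm_num)] with i hi
    rw [injective_iff_map_eq_zero]
    rintro ⟨x, hx⟩ h0
    have h1 : π x = 0 := h0
    have h2 := hi x hx
    rw [h1, Submodule.coe_zero, sub_zero] at h2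
    have h3 : ‖x‖ ≤ 0 := by linarith [norm_nonneg x]
    exact Subtype.ext (norm_le_zero_iff.1 h3)
  have hbij : ∀ᶠ i in l, Function.Bijective (π.toLinearMap.domRestrict (Z i)) := by
    filter_upwards [hinj, hd] with i h1 h2
    have h3 : Module.finrank ℝ (Z i) = Module.finrank ℝ Z₀ :=
      le_antisymm (LinearMap.finrank_le_finrank_of_injective h1) h2
    exact ⟨h1, (LinearMap.injective_iff_surjective_of_finrank_eq_finrank h3).1 h1⟩
  let L : ι → (Z₀ →L[ℝ] V) := fun i =>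
    if hi : Function.Bijective (π.toLinearMap.domRestrict (Z i)) then
      (Z i).subtypeL ∘L (LinearMap.toContinuousLinearMap
        (LinearEquiv.ofBijective _ hi).symm.toLinearMap)
    else 0
  have hLm : ∀ i, Function.Bijective (π.toLinearMap.domRestrict (Z i)) → ∀ z : Z₀,
      L i z ∈ Z i ∧ π (L i z) = z := by
    intro i hi z
    have h1 : L i z = ((LinearEquiv.ofBijective _ hi).symm z : Z i) := by
      simp only [L, dif_pos hi]
      rfl
    rw [h1]
    refine ⟨((LinearEquiv.ofBijective _ hi).symm z).2, ?_⟩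
    exact (LinearEquiv.ofBijective _ hi).apply_symm_apply z
  refine ⟨L, ?_, ?_⟩
  · refine tendsto_clm fun z => ?_
    rw [Metric.tendsto_nhds]
    intro δ hδ
    have hε : 0 < min (1 / 2) (δ / (4 * (‖z‖ + 1))) := by positivity
    filter_upwards [hbij, key _ hε] with i h1 h2
    obtain ⟨h3, h4⟩ := hLm i h1 z
    have h5 := h2 _ h3
    rw [h4] at h5
    set e := min (1 / 2) (δ / (4 * (‖z‖ + 1))) with he
    have h6 : e ≤ 1 / 2 := min_le_left _ _
    have h7 : e ≤ δ / (4 * (‖z‖ + 1)) := min_le_right _ _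
    have h8 : ‖L i z‖ ≤ ‖L i z - (z : V)‖ + ‖z‖ := by
      have := norm_add_le (L i z - (z : V)) (z : V)
      rw [sub_add_cancel] at this
      exact this
    have h9 := norm_nonneg z
    have h10 : ‖L i z‖ ≤ 2 * ‖z‖ := by nlinarith [norm_nonneg (L i z)]
    rw [dist_eq_norm]
    show ‖L i z - (z : V)‖ < δ
    calc ‖L i z - (z : V)‖ ≤ e * ‖L i z‖ := h5
      _ ≤ e * (2 * (‖z‖ + 1)) := by
        have : (0 : ℝ) ≤ e := hε.le
        gcongr
        linarith
      _ ≤ δ / (4 * (‖z‖ + 1)) * (2 * (‖z‖ + 1)) := by gcongr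
      _ = δ / 2 := by field_simp; norm_num
      _ < δ := by linarith
  · filter_upwards [hbij] with i h1
    ext x
    constructor
    · rintro ⟨z, rfl⟩
      exact (hLm i h1 z).1
    · intro hx
      refine ⟨π x, ?_⟩
      obtain ⟨h3, h4⟩ := hLm i h1 (π x)
      have h5 : (⟨L i (π x), h3⟩ : Z i) = ⟨x, hx⟩ := h1.1 h4
      exact congrArg Subtype.val h5

end Pool.Agent.H35.SN
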