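import Pool.Agent.H35.SN.Count

/-!
# The identity (*) passes to the limit: linear algebra (helper35)
-/

set_option autoImplicit false
set_option linter.unusedSectionVars false

open scoped Topology InnerProductSpace
open Set Filter

namespace Pool.Agent.H35.SN

section general

variable {ι V W : Type*} [NormedAddCommGroup V] [NormedSpace ℝ V]
  [FiniteDimensional ℝ V] [NormedAddCommGroup W] [NormedSpace ℝ W] [FiniteDimensional ℝ W]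
  {l : Filter ι}

theorem Gap.comapL {Z : ι → Submodule ℝ W} {Z₀ : Submodule ℝ W} (h : Gap l Z Z₀)
    (A : V →ₗ[ℝ] W) : Gap l (fun i => (Z i).comap A) (Z₀.comap A) :=
  h.comap (LinearMap.toContinuousLinearMap A)

theorem Gap.const (l : Filter ι) (Q : Submodule ℝ V) : Gap l (fun _ => Q) Q := by
  intro ε hε
  refine Eventually.of_forall fun i x hx => ⟨x, hx, ?_⟩
  rw [sub_self, norm_zero]
  positivity

theorem Gap.prod {Z : ι → Submodule ℝ V} {Z₀ : Submodule ℝ V} {T : ι → Submodule ℝ W}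
    {T₀ : Submodule ℝ W} (h : Gap l Z Z₀) (h' : Gap l T T₀) :
    Gap l (fun i => (Z i).prod (T i)) (Z₀.prod T₀) := by
  have h1 := (h.comapL (LinearMap.fst ℝ V W)).inf (h'.comapL (LinearMap.snd ℝ V W))
  intro ε hε
  filter_upwards [h1 ε hε] with i hi x hx
  obtain ⟨z, hz, hxz⟩ := hi x ⟨hx.1, hx.2⟩
  exact ⟨z, ⟨hz.1, hz.2⟩, hxz⟩

theorem Gap.mono {l' : Filter ι} {Z : ι → Submodule ℝ V} {Z₀ : Submodule ℝ V} (h : Gap l Z Z₀)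
    (hl : l' ≤ l) : Gap l' Z Z₀ := fun ε hε => (h ε hε).filter_mono hl

theorem SConv.mono {l' : Filter ι} {Z : ι → Submodule ℝ V} {Z₀ : Submodule ℝ V}
    (h : SConv l Z Z₀) (hl : l' ≤ l) : SConv l' Z Z₀ := by
  obtain ⟨L, hL, hr⟩ := h
  exact ⟨L, hL.mono_left hl, hr.filter_mono hl⟩

theorem Gap.congr {Z T : ι → Submodule ℝ V} {Z₀ : Submodule ℝ V} (h : Gap l Z Z₀)
    (hT : ∀ᶠ i in l, T i ≤ Z i) : Gap l T Z₀ := by
  intro ε hε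
  filter_upwards [h ε hε, hT] with i h1 h2 x hx
  exact h1 x (h2 hx)

end general

variable {E : Type*} [NormedAddCommGroup E] [InnerProductSpace ℝ E] [FiniteDimensional ℝ E]
variable {n m : ℕ} {Z : Submodule ℝ ((E × E) × (E × E))} {U1 U2 : Submodule ℝ (E × E)}
  {T1 T2 : Submodule ℝ E} {Y1 Y2 : Submodule ℝ (E × E)}

/-- The additional structure at the limit point. -/
structure RN (n m : ℕ) (Z : Submodule ℝ ((E × E) × (E × E))) (U1 U2 : Submodule ℝ (E × E))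
    (T1 T2 : Submodule ℝ E) (Y1 Y2 : Submodule ℝ (E × E)) : Prop
    extends RL n m Z U1 U2 T1 T2 Y1 Y2 where
  tr1 : ∀ a ∈ Y1, a.1 = 0 → a = 0
  tr2 : ∀ a ∈ Y2, a.1 = 0 → a = 0
  nd : Module.finrank ℝ (TZl Z) + 1 ≤ m
  e1 : ∀ ξ ∈ TZl Z, (∀ e ∈ TTl Y1, ⟪e, ξ.1⟫_ℝ = 0) → ξ.1 = 0
  e2 : ∀ ξ ∈ TZl Z, (∀ e ∈ TTl Y2, ⟪e, ξ.2⟫_ℝ = 0) → ξ.2 = 0

theorem RN.fst_inj (h : RN n m Z U1 U2 T1 T2 Y1 Y2) {ξ : E × E} (hξ : ξ ∈ TZl Z)
    (h0 : ξ.1 = 0) : ξ = 0 := by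
  obtain ⟨a, b⟩ := ξ
  have h1 : a = 0 := h0
  subst h1
  have h2 := h.tr2 _ ((h.y2 _).1 (mem_TZl.1 hξ)) rfl
  have h3 : b = 0 := congrArg Prod.snd h2
  rw [h3]
  rfl

theorem RN.snd_inj (h : RN n m Z U1 U2 T1 T2 Y1 Y2) {ξ : E × E} (hξ : ξ ∈ TZl Z)
    (h0 : ξ.2 = 0) : ξ = 0 := by
  obtain ⟨a, b⟩ := ξ
  have h1 : b = 0 := h0
  subst h1
  have h2 := h.tr1 _ ((h.y1 _).1 (mem_TZl.1 hξ)) rfl
  have h3 : a = 0 := congrArg Prod.snd h2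
  rw [h3]
  rfl

theorem finrank_Csol_le :
    Module.finrank ℝ (Csol Z) ≤ Module.finrank ℝ (TZl Z) + Module.finrank ℝ (TZl Z) := by
  refine finrank_le_map_add (LinearMap.fst ℝ _ _) (Submodule.finrank_mono ?_) ?_
  · rintro _ ⟨x, hx, rfl⟩
    exact (mem_Csol.1 hx).1
  · refine finrank_le_of_inj_on (vp ∘ₗ LinearMap.snd ℝ (E × E) _) ?_ ?_
    · rintro ⟨ξ, ⟨a, b⟩, ⟨c, d⟩⟩ ⟨h1, h2⟩
      obtain ⟨h3, h4, h5, h6⟩ := mem_Csol.1 h1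
      have h7 : ξ = 0 := h2
      have h8 : a = 0 := h5
      have h9 : c = ξ.2 := h6
      subst h7 h8
      rw [Prod.snd_zero] at h9
      subst h9
      exact h4
    · rintro ⟨ξ, ⟨a, b⟩, ⟨c, d⟩⟩ ⟨h1, h2⟩ h0
      obtain ⟨h3, h4, h5, h6⟩ := mem_Csol.1 h1
      have h7 : ξ = 0 := h2
      have h8 : a = 0 := h5
      have h9 : c = ξ.2 := h6
      have h10 : b = 0 := congrArg Prod.fst h0
      have h11 : d = 0 := congrArg Prod.snd h0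
      subst h7 h8 h10 h11
      rw [Prod.snd_zero] at h9
      subst h9
      rfl

theorem RN.finrank_D1sol_le (h : RN n m Z U1 U2 T1 T2 Y1 Y2) :
    Module.finrank ℝ (D1sol Z) ≤ Module.finrank ℝ (TZl Z) := by
  refine finrank_le_of_inj_on (LinearMap.snd ℝ _ _) (fun x hx => (mem_D1sol.1 hx).2.1) ?_
  rintro ⟨η, η'⟩ hx h0
  obtain ⟨h1, h2, h3⟩ := mem_D1sol.1 hx
  have h4 : η' = 0 := h0
  subst h4
  have h5 := h3 η h1
  have h6 : ⟪η.1, η.1⟫_ℝ = 0 := by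
    have h7 : ⟪η.1, η.1⟫_ℝ = ⟪η.2, (0 : E)⟫_ℝ := h5
    rw [h7, inner_zero_right]
  have h7 : η = 0 := h.fst_inj h1 (inner_self_eq_zero.1 h6)
  rw [h7]
  rfl

theorem RN.z1 (h : RN n m Z U1 U2 T1 T2 Y1 Y2) {z : (E × E) × (E × E)} (hz : z ∈ Z1 Z Y1)
    (h0 : z.2.1 ∈ TTl Y2) : z.1 = 0 ∧ z.2 ∈ Y2 := by
  obtain ⟨h1, h2, h3⟩ := mem_Z1.1 hz
  obtain ⟨K, hK, hK1⟩ := mem_TTl.1 h0
  obtain ⟨⟨a, b⟩, ⟨c, d⟩⟩ := z
  obtain ⟨k, k'⟩ := K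
  have h2' : a = 0 := h2
  have hK1' : k = c := hK1
  subst h2' hK1'
  have h4 := Z.sub_mem h1 ((h.y2 _).2 hK)
  have h5 : ((((0 : E), b), (k, d)) : (E × E) × (E × E)) - ((0 : E × E), (k, k'))
      = ((0, b), (0, d - k')) := by
    ext <;> simp
  rw [h5] at h4
  have h6 : ((b, d - k') : E × E) ∈ TZl Z := h4
  have h7 := h.e1 _ h6 h3
  have h7' : b = 0 := h7
  subst h7'
  exact ⟨rfl, (h.y2 _).1 h1⟩

theorem RN.z2 (h : RN n m Z U1 U2 T1 T2 Y1 Y2) {z : (E × E) × (E × E)} (hz : z ∈ Z2 Z Y2)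
    (h0 : z.1.1 ∈ TTl Y1) : z.2 = 0 ∧ z.1 ∈ Y1 := by
  obtain ⟨h1, h2, h3⟩ := mem_Z2.1 hz
  obtain ⟨K, hK, hK1⟩ := mem_TTl.1 h0
  obtain ⟨⟨a, b⟩, ⟨c, d⟩⟩ := z
  obtain ⟨k, k'⟩ := K
  have h2' : c = 0 := h2
  have hK1' : k = a := hK1
  subst h2' hK1'
  have h4 := Z.sub_mem h1 ((h.y1 _).2 hK)
  have h5 : ((((k : E), b), (0, d)) : (E × E) × (E × E)) - ((k, k'), (0 : E × E))
      = ((0, b - k'), (0, d)) := by
    ext <;> simp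
  rw [h5] at h4
  have h6 : ((b - k', d) : E × E) ∈ TZl Z := h4
  have h7 := h.e2 _ h6 h3
  have h7' : d = 0 := h7
  subst h7'
  exact ⟨rfl, (h.y1 _).1 h1⟩

theorem RN.finrank_S2sol_le (h : RN n m Z U1 U2 T1 T2 Y1 Y2) :
    Module.finrank ℝ (S2sol Z Y1 Y2) ≤ Module.finrank ℝ (TZl Z) + (m + m) := by
  refine finrank_le_map_add (LinearMap.fst ℝ _ _) (Submodule.finrank_mono ?_) ?_
  · rintro _ ⟨x, hx, rfl⟩
    exact (mem_S2sol.1 hx).1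
  · have h1 : Module.finrank ℝ (Y2.prod Y1) = m + m := by
      rw [finrank_prod', h.fY1, h.fY2]
    rw [← h1]
    have key : ∀ x ∈ (S2sol Z Y1 Y2 ⊓ LinearMap.ker (LinearMap.fst ℝ (E × E)
        (((E × E) × (E × E)) × ((E × E) × (E × E)))) : Submodule ℝ _),
        x.1 = 0 ∧ (x.2.1.1 = 0 ∧ x.2.1.2 ∈ Y2) ∧ (x.2.2.2 = 0 ∧ x.2.2.1 ∈ Y1) := by
      rintro ⟨ξ, z, z'⟩ ⟨h2, h3⟩
      obtain ⟨h4, h5, h6, h7, h8⟩ := mem_S2sol.1 h2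
      have h9 : ξ = 0 := h3
      subst h9
      have h7' : z.2.1 ∈ TTl Y2 := by
        have : z.2.1 - (0 : E) ∈ TTl Y2 := h7
        rwa [sub_zero] at this
      have h8' : z'.1.1 ∈ TTl Y1 := by
        have : z'.1.1 - (0 : E) ∈ TTl Y1 := h8
        rwa [sub_zero] at this
      exact ⟨rfl, h.z1 h5 h7', h.z2 h6 h8'⟩
    refine finrank_le_of_inj_on
      (((LinearMap.snd ℝ (E × E) (E × E)).prodMap (LinearMap.fst ℝ (E × E) (E × E))) ∘ₗ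
        (LinearMap.snd ℝ (E × E) _)) (fun x hx => ?_) fun x hx h0 => ?_
    · exact ⟨(key x hx).2.1.2, (key x hx).2.2.2⟩
    · obtain ⟨h2, ⟨h3, h4⟩, h5, h6⟩ := key x hx
      obtain ⟨ξ, ⟨a, b⟩, ⟨c, d⟩⟩ := x
      have h7 : b = 0 := congrArg Prod.fst h0
      have h8 : c = 0 := congrArg Prod.snd h0
      have h9 : ξ = 0 := h2
      have h10 : a = 0 := h3
      have h11 : d = 0 := h5
      subst h7 h8 h9 h10 h11
      rfl

end Pool.Agent.H35.SN
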